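import Pool.Agent.H97.SU.Su
import Pool.Agent.H15.PM.J
import Pool.Agent.H15.PM.Q

/-!
# Contact points: exact coupling, no long lobe, one long lobe

* `contact_u`: the multiplier `u` eliminated: the virtual flat lobe `(2 θ - sum b, 2 hJ - sum h)`.
* `long`: a contact point with `T tan θ <= 1` has a lobe with `b > θ` (surgery, `K = 1`).
* `pair_of_cl`: all other lobes merge to one natural lobe `(2 θ - b, 2 hJ - h)`.
* `no_cl`: no contact point if the pair inequality `Pr` holds.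
-/

open Complex MeasureTheory Set Filter Topology
open scoped ComplexConjugate Real

namespace Pool.Agent.H97.SU

open Pool.Agent.H36.SZ Pool.Agent.H15.PM

theorem lam_sum (t θ K u : ℝ) (L : List Lb) :
    (L.map (lam t θ K u)).sum =
      (L.map (lam t θ K 0)).sum - 2 * u * (L.map Lb.h).sum + u ^ 2 * (L.map Lb.b).sum / r2 t θ := by
  induction L with
  | nil => simp
  | cons l L ih =>
    simp only [List.map_cons, List.sum_cons, ih]
    unfold lam
    ring

theorem contact_u {t θ : ℝ} (ht : 0 < t) {L : List Lb} (hL : Cl t θ L) {K : ℝ} (hK : 0 < K) :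
    ((L.map Lb.b).sum < 2 * θ ∧ (L.map (lam t θ K 0)).sum +
        r2 t θ * (2 * hJ t θ - (L.map Lb.h).sum) ^ 2 / (2 * θ - (L.map Lb.b).sum) <
        2 * lamJ t θ K 0) ∨
      ((L.map Lb.b).sum = 2 * θ ∧ (L.map Lb.h).sum = 2 * hJ t θ ∧
        (L.map (lam t θ K 0)).sum < 2 * lamJ t θ K 0) := by
  have hr := r2_pos ht θ
  have hc : ∀ u : ℝ, (L.map (lam t θ K 0)).sum - 2 * u * (L.map Lb.h).sum +
      u ^ 2 * (L.map Lb.b).sum / r2 t θ <
      2 * lamJ t θ K 0 - 4 * u * hJ t θ + 2 * u ^ 2 * θ / r2 t θ := by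
    intro u
    have h := contact ht hL hK u
    rw [lam_sum] at h
    have e : 2 * lamJ t θ K u = 2 * lamJ t θ K 0 - 4 * u * hJ t θ + 2 * u ^ 2 * θ / r2 t θ := by
      unfold lamJ
      ring
    linarith
  have hsb := hL.sb
  set A := (L.map (lam t θ K 0)).sum
  set B := (L.map Lb.b).sum
  set H := (L.map Lb.h).sum
  set J0 := lamJ t θ K 0
  set a := hJ t θ
  set ρ := r2 t θ
  rcases lt_or_eq_of_le hsb with h1 | h1
  · left
    refine ⟨h1, ?_⟩
    have h2 : 0 < 2 * θ - B := by linarith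
    have h3 := hc (ρ * (2 * a - H) / (2 * θ - B))
    have e1 : A - 2 * (ρ * (2 * a - H) / (2 * θ - B)) * H +
        (ρ * (2 * a - H) / (2 * θ - B)) ^ 2 * B / ρ -
        (2 * J0 - 4 * (ρ * (2 * a - H) / (2 * θ - B)) * a +
          2 * (ρ * (2 * a - H) / (2 * θ - B)) ^ 2 * θ / ρ) =
        A + ρ * (2 * a - H) ^ 2 / (2 * θ - B) - 2 * J0 := by
      field_simp
      ring
    linarith
  · right
    have h2 : ∀ u : ℝ, A + 2 * u * (2 * a - H) < 2 * J0 := by
      intro u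
      have h3 := hc u
      rw [h1] at h3
      have e : u ^ 2 * (2 * θ) / ρ = 2 * u ^ 2 * θ / ρ := by ring
      rw [e] at h3
      linarith
    have h3 : H = 2 * a := by
      by_contra hne
      have h4 : 2 * a - H ≠ 0 := fun h => hne (by linarith)
      have h5 := h2 ((2 * J0 - A) / (2 * (2 * a - H)))
      have e : A + 2 * ((2 * J0 - A) / (2 * (2 * a - H))) * (2 * a - H) = 2 * J0 := by
        field_simp
        ring
      linarith
    have h4 := h2 0
    exact ⟨h1, h3, by linarith⟩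

theorem Pc_lobe {l : Lb} {C x : ℝ} (hl : l.Ok C x) (hx : 0 < x) {K : ℝ} (hK : 0 < K)
    (hKb : K * (2 * l.b) < π) :
    Pc K (√x) (2 * l.b) (2 * l.h) (l.E - K ^ 2 * l.M) := by
  have cg : Continuous l.g := continuous_iff_continuousAt.2 fun u => (hl.der u).continuousAt
  have h := Pc_path (g := l.g) (g' := l.g') (K := K) (b := l.b) (h := l.h) (r := √x) hK hl.b0 hKb
    (Real.sqrt_pos.2 hx) hl.der hl.cont hl.er hl.el
    (fun u hu => Real.sqrt_le_iff.2 ⟨norm_nonneg _, hl.ge u hu⟩)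
  have e : ∫ s in (-l.b)..l.b, (‖l.g' s‖ ^ 2 - K ^ 2 * ‖l.g s‖ ^ 2) = l.E - K ^ 2 * l.M := by
    unfold Lb.E Lb.M
    rw [intervalIntegral.integral_sub, intervalIntegral.integral_const_mul]
    · exact (hl.cont.norm.pow 2).intervalIntegrable _ _
    · exact ((cg.norm.pow 2).const_mul _ |>.intervalIntegrable _ _)
  rwa [e] at h

/-- the data of a lobe as a piece -/
noncomputable def pcd (K : ℝ) (l : Lb) : ℝ × ℝ × ℝ := (2 * l.b, 2 * l.h, l.E - K ^ 2 * l.M)

theorem pcd_sum (t θ K : ℝ) (L : List Lb) :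
    ((L.map (pcd K)).map fun x => x.1).sum = 2 * (L.map Lb.b).sum ∧
    ((L.map (pcd K)).map fun x => x.2.1).sum = 2 * (L.map Lb.h).sum ∧
    ((L.map (pcd K)).map fun x => x.2.2).sum =
      8 * (L.map (lam t θ K 0)).sum - 8 * K ^ 2 * r2 t θ * (L.map Lb.b).sum := by
  induction L with
  | nil => simp
  | cons l L ih =>
    obtain ⟨i1, i2, i3⟩ := ih
    simp only [List.map_cons, List.sum_cons, i1, i2, i3]
    refine ⟨?_, ?_, ?_⟩
    · unfold pcd; ring
    · unfold pcd; ring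
    · unfold pcd lam
      rw [Xl_eq]
      ring

theorem nn_psi {t θ K p η : ℝ} (ht : 0 < t) :
    nn K (2 * p) (√(Xl t θ)) (√(Xl t θ)) (2 * η) =
      8 * psi (r2 t θ) K 0 p η - 8 * K ^ 2 * r2 t θ * p := by
  have hX : 0 ≤ Xl t θ := by rw [Xl_eq]; have := r2_pos ht θ; positivity
  unfold nn psi
  have e0 : K * (2 * p) = 2 * (K * p) := by ring
  have e1 : (√(Xl t θ)) ^ 2 + (√(Xl t θ)) ^ 2 = 8 * r2 t θ := by
    rw [Real.sq_sqrt hX, Xl_eq]; ring
  have e2 : 2 * √(Xl t θ) * √(Xl t θ) = 8 * r2 t θ := by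
    rw [mul_assoc, Real.mul_self_sqrt hX, Xl_eq]; ring
  rw [e0, e1, e2]
  ring

theorem hJ_mem {t θ : ℝ} (ht : 0 < t) (h0 : 0 < θ) (h1 : θ < π / 2)
    (hT : Real.tanh t * Real.tan θ ≤ 1) : 0 ≤ hJ t θ ∧ hJ t θ ≤ π / 4 := by
  unfold hJ
  have hT0 : 0 ≤ Real.tanh t * Real.tan θ :=
    mul_nonneg (by
      rw [Real.tanh_eq_sinh_div_cosh]
      have := Real.sinh_pos_iff.2 ht
      have := Real.cosh_pos t
      positivity) (Real.tan_nonneg_of_nonneg_of_le_pi_div_two h0.le h1.le)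
  refine ⟨Real.arctan_nonneg.2 hT0, ?_⟩
  rw [← Real.arctan_one]
  exact Real.arctan_strictMono.monotone hT

/-- two natural segments of length `2 θ` with total turning `4 hJ` -/
theorem two_nn {t θ α β : ℝ} (ht : 0 < t) (h0 : 0 < θ) (h1 : θ < π / 2)
    (hT : Real.tanh t * Real.tan θ ≤ 1) (hab : α + β = 4 * hJ t θ) :
    16 * lamJ t θ 1 0 - 16 * r2 t θ * θ ≤
      nn 1 (2 * θ) (√(Xl t θ)) (√(Xl t θ)) α + nn 1 (2 * θ) (√(Xl t θ)) (√(Xl t θ)) β := by
  obtain ⟨j0, j1⟩ := hJ_mem ht h0 h1 hT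
  have hr := r2_pos ht θ
  have ea : α = 2 * (α / 2) := by ring
  have eb : β = 2 * (β / 2) := by ring
  rw [ea, eb, nn_psi ht, nn_psi ht, ← psi_J ht h0 h1 0]
  have hs : 0 < Real.sin (2 * θ) := Real.sin_pos_of_pos_of_lt_pi (by linarith) (by linarith)
  have hcos : Real.cos (2 * (α / 2)) + Real.cos (2 * (β / 2)) ≤ 2 * Real.cos (2 * hJ t θ) := by
    have e1 : 2 * (α / 2) = 2 * hJ t θ + (α - β) / 2 := by linarith
    have e2 : 2 * (β / 2) = 2 * hJ t θ - (α - β) / 2 := by linarith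
    rw [e1, e2, Real.cos_add, Real.cos_sub]
    have hc : 0 ≤ Real.cos (2 * hJ t θ) :=
      Real.cos_nonneg_of_mem_Icc ⟨by linarith [Real.pi_pos], by linarith⟩
    have := Real.cos_le_one ((α - β) / 2)
    nlinarith
  unfold psi
  simp only [one_mul, mul_one]
  have e3 : ∀ h : ℝ, r2 t θ * (Real.cos (2 * θ) - Real.cos (2 * h)) / Real.sin (2 * θ) =
      r2 t θ / Real.sin (2 * θ) * (Real.cos (2 * θ) - Real.cos (2 * h)) := fun h => by ring
  rw [e3, e3, e3]
  have h4 : 0 < r2 t θ / Real.sin (2 * θ) := div_pos hr hs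
  have h5 := mul_le_mul_of_nonneg_left hcos h4.le
  nlinarith [h5]

/-- no contact point with all lobes short -/
theorem long {t θ : ℝ} (ht : 0 < t) (h0 : 0 < θ) (h1 : θ < π / 2)
    (hT : Real.tanh t * Real.tan θ ≤ 1) {L : List Lb} (hL : Cl t θ L) : ∃ l ∈ L, θ < l.b := by
  by_contra hcon
  push Not at hcon
  have hr := r2_pos ht θ
  have hX : 0 < Xl t θ := by rw [Xl_eq]; positivity
  have hXr : (√(Xl t θ)) ^ 2 = 4 * r2 t θ := by rw [Real.sq_sqrt hX.le, Xl_eq]
  have hKl : (1 : ℝ) * (2 * θ) < π := by linarith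
  have hpc : ∀ x ∈ L.map (pcd 1), Pc 1 (√(Xl t θ)) x.1 x.2.1 x.2.2 ∧ x.1 ≤ 2 * θ := by
    intro x hx
    obtain ⟨l, hl, rfl⟩ := List.mem_map.1 hx
    have hb := hcon l hl
    exact ⟨Pc_lobe (hL.ok l hl) hX one_pos (by linarith), by unfold pcd; simp only; linarith⟩
  obtain ⟨s1, s2, s3⟩ := pcd_sum t θ 1 L
  rcases contact_u ht hL one_pos with ⟨c1, c2⟩ | ⟨c1, c2, c3⟩
  · set b' := 2 * θ - (L.map Lb.b).sum with hb'
    set h' := 2 * hJ t θ - (L.map Lb.h).sum with hh'
    have hb0 : 0 < b' := by linarith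
    have hB : 0 ≤ (L.map Lb.b).sum := List.sum_nonneg fun x hx => by
      obtain ⟨l, hl, rfl⟩ := List.mem_map.1 hx
      exact (hL.ok l hl).b0.le
    have hfl := Pc_flat (K := 1) (b := b' / 2) (h := h' / 2) (r := √(Xl t θ)) one_pos
      (by linarith) (by linarith) (Real.sqrt_pos.2 hX)
    obtain ⟨α, β, h3, h4⟩ := list_two one_pos hKl
      ((2 * (b' / 2), 2 * (h' / 2), 2 * (√(Xl t θ)) ^ 2 * (h' / 2) ^ 2 / (b' / 2) -
        2 * (1 : ℝ) ^ 2 * (√(Xl t θ)) ^ 2 * (b' / 2)) :: L.map (pcd 1)) _ _ _ hfl (by linarith)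
      (by
        intro x hx
        rcases List.mem_cons.1 hx with h | h
        · subst h
          exact ⟨hfl, by simp only; linarith⟩
        · exact hpc x h)
      (by
        simp only [List.map_cons, List.sum_cons, s1]
        linarith)
    simp only [List.map_cons, List.sum_cons, s2, s3] at h3 h4
    have h5 := two_nn ht h0 h1 hT (α := α) (β := β) (by rw [h3, hh']; ring)
    rw [hXr] at h4
    have e1 : 2 * (4 * r2 t θ) * (h' / 2) ^ 2 / (b' / 2) = 4 * (r2 t θ * h' ^ 2 / b') := by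
      field_simp
    rw [e1] at h4
    have e2 : 8 * (1 : ℝ) ^ 2 * r2 t θ * (L.map Lb.b).sum + 8 * r2 t θ * b' =
        16 * r2 t θ * θ := by
      rw [hb']; ring
    linarith
  · cases L with
    | nil =>
      simp only [List.map_nil, List.sum_nil] at c1
      linarith
    | cons l L' =>
      obtain ⟨t1, t2, t3⟩ := pcd_sum t θ 1 L'
      have hl := hpc (pcd 1 l) (by simp)
      have hPl := hl.1
      have hbl := hl.2
      unfold pcd at hPl hbl
      simp only at hPl hbl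
      simp only [List.map_cons, List.sum_cons] at c1 c2 c3
      obtain ⟨α, β, h3, h4⟩ := list_two one_pos hKl (L'.map (pcd 1)) _ _ _ hPl hbl
        (fun x hx => hpc x (by
          rw [List.map_cons]
          exact List.mem_cons_of_mem _ hx)) (by rw [t1]; linarith)
      rw [t2] at h3
      rw [t3] at h4
      have h5 := two_nn ht h0 h1 hT (α := α) (β := β) (by rw [h3]; linarith)
      have e1 : l.E - 1 ^ 2 * l.M = 8 * lam t θ 1 0 l - 8 * r2 t θ * l.b := by
        unfold lam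
        rw [Xl_eq]
        ring
      rw [e1] at h4
      have e2 : 8 * (1 : ℝ) ^ 2 * r2 t θ * (L'.map Lb.b).sum + 8 * r2 t θ * l.b =
          16 * r2 t θ * θ := by
        have : (L'.map Lb.b).sum = 2 * θ - l.b := by linarith
        rw [this]; ring
      linarith

private theorem split_list {L : List Lb} {l : Lb} (hl : l ∈ L) :
    ∃ L' : List Lb, (∀ f : Lb → ℝ, (L.map f).sum = f l + (L'.map f).sum) ∧ ∀ x ∈ L', x ∈ L := by
  obtain ⟨s, s', rfl⟩ := List.append_of_mem hl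
  refine ⟨s ++ s', fun f => ?_, fun x hx => ?_⟩
  · simp only [List.map_append, List.map_cons, List.sum_append, List.sum_cons]
    ring
  · rcases List.mem_append.1 hx with h | h
    · exact List.mem_append_left _ h
    · exact List.mem_append_right _ (List.mem_cons_of_mem _ h)

/-- the other lobes merge to one natural lobe -/
theorem pair_of_cl {t θ : ℝ} (ht : 0 < t) {L : List Lb} (hL : Cl t θ L) {l : Lb}
    (hl : l ∈ L) {K : ℝ} (hK : 0 < K) (hKb : K * (2 * θ - l.b) < π / 2) :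
    l.b ≤ 2 * θ ∧ (l.b = 2 * θ → l.h = 2 * hJ t θ) ∧
      lam t θ K 0 l + psi (r2 t θ) K 0 (2 * θ - l.b) (2 * hJ t θ - l.h) < 2 * lamJ t θ K 0 := by
  obtain ⟨L', hs, hmem⟩ := split_list hl
  have hr := r2_pos ht θ
  have hX : 0 < Xl t θ := by rw [Xl_eq]; positivity
  have hXr : (√(Xl t θ)) ^ 2 = 4 * r2 t θ := by rw [Real.sq_sqrt hX.le, Xl_eq]
  have hpos : ∀ x ∈ L', 0 < x.b := fun x hx => (hL.ok x (hmem x hx)).b0
  have hB' : 0 ≤ (L'.map Lb.b).sum := List.sum_nonneg fun y hy => by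
    obtain ⟨x, hx, rfl⟩ := List.mem_map.1 hy
    exact (hpos x hx).le
  have hle : ∀ x ∈ L', x.b ≤ (L'.map Lb.b).sum := by
    intro x hx
    obtain ⟨s, s', rfl⟩ := List.append_of_mem hx
    simp only [List.map_append, List.map_cons, List.sum_append, List.sum_cons]
    have h1 : 0 ≤ (s.map Lb.b).sum := List.sum_nonneg fun y hy => by
      obtain ⟨z, hz, rfl⟩ := List.mem_map.1 hy
      exact (hpos z (List.mem_append_left _ hz)).le
    have h2 : 0 ≤ (s'.map Lb.b).sum := List.sum_nonneg fun y hy => by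
      obtain ⟨z, hz, rfl⟩ := List.mem_map.1 hy
      exact (hpos z (List.mem_append_right _ (List.mem_cons_of_mem _ hz))).le
    linarith
  have hsb := hL.sb
  rw [hs] at hsb
  have hKB : ∀ y, y ≤ 2 * θ - l.b → K * (2 * y) < π := by
    intro y hy
    have := mul_le_mul_of_nonneg_left hy hK.le
    linarith
  have hpc : ∀ x ∈ L'.map (pcd K), Pc K (√(Xl t θ)) x.1 x.2.1 x.2.2 := by
    intro x hx
    obtain ⟨y, hy, rfl⟩ := List.mem_map.1 hx
    exact Pc_lobe (hL.ok y (hmem y hy)) hX hK (hKB _ (by linarith [hle y hy]))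
  obtain ⟨s1, s2, s3⟩ := pcd_sum t θ K L'
  rcases contact_u ht hL hK with ⟨c1, c2⟩ | ⟨c1, c2, c3⟩
  · rw [hs] at c1
    refine ⟨by linarith, fun h => by linarith, ?_⟩
    rw [hs, hs, hs] at c2
    set b' := 2 * θ - (l.b + (L'.map Lb.b).sum) with hb'
    set h' := 2 * hJ t θ - (l.h + (L'.map Lb.h).sum) with hh'
    have hb0 : 0 < b' := by linarith
    have hfl := Pc_flat (K := K) (b := b') (h := h') (r := √(Xl t θ)) hK hb0
      (hKB _ (by linarith)) (Real.sqrt_pos.2 hX)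
    have e0 : 2 * b' + 2 * (L'.map Lb.b).sum = 2 * (2 * θ - l.b) := by rw [hb']; ring
    have h3 := list_one hK (L'.map (pcd K)) _ _ _ hfl hpc (by
      rw [s1, e0]
      exact hKB _ le_rfl)
    have h4 := h3.2.1
    rw [s1, s2, s3, e0, hXr] at h4
    have e1 : 2 * h' + 2 * (L'.map Lb.h).sum = 2 * (2 * hJ t θ - l.h) := by rw [hh']; ring
    rw [e1, nn_psi ht] at h4
    have e2 : 2 * (4 * r2 t θ) * h' ^ 2 / b' = 8 * (r2 t θ * h' ^ 2 / b') := by ring
    rw [e2] at h4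
    have e3 : 8 * K ^ 2 * r2 t θ * (2 * θ - l.b) = 2 * K ^ 2 * (4 * r2 t θ) * b' +
        8 * K ^ 2 * r2 t θ * (L'.map Lb.b).sum := by
      rw [hb']; ring
    linarith
  · rw [hs] at c1 c2 c3
    cases L' with
    | nil =>
      simp only [List.map_nil, List.sum_nil, add_zero] at c1 c2 c3
      refine ⟨by linarith, fun _ => c2, ?_⟩
      have e1 : 2 * θ - l.b = 0 := by linarith
      have e2 : psi (r2 t θ) K 0 (2 * θ - l.b) (2 * hJ t θ - l.h) = 0 := by
        rw [e1]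
        unfold psi
        simp
      linarith
    | cons x L'' =>
      obtain ⟨t1, t2, t3⟩ := pcd_sum t θ K L''
      have hx0 := hpos x List.mem_cons_self
      have hB2 : 0 ≤ (L''.map Lb.b).sum := List.sum_nonneg fun y hy => by
        obtain ⟨z, hz, rfl⟩ := List.mem_map.1 hy
        exact (hpos z (List.mem_cons_of_mem _ hz)).le
      simp only [List.map_cons, List.sum_cons] at c1 c2 c3
      refine ⟨by linarith, fun h => by linarith, ?_⟩
      have hPx := hpc (pcd K x) (by simp)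
      unfold pcd at hPx
      simp only at hPx
      have e0 : 2 * x.b + 2 * (L''.map Lb.b).sum = 2 * (2 * θ - l.b) := by linarith
      have h3 := list_one hK (L''.map (pcd K)) _ _ _ hPx (fun y hy => hpc y (by
        rw [List.map_cons]
        exact List.mem_cons_of_mem _ hy)) (by
        rw [t1, e0]
        exact hKB _ le_rfl)
      have h4 := h3.2.1
      rw [t1, t2, t3, e0] at h4
      have e1 : 2 * x.h + 2 * (L''.map Lb.h).sum = 2 * (2 * hJ t θ - l.h) := by linarith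
      rw [e1, nn_psi ht] at h4
      have e2 : x.E - K ^ 2 * x.M = 8 * lam t θ K 0 x - 8 * K ^ 2 * r2 t θ * x.b := by
        unfold lam
        rw [Xl_eq]
        ring
      rw [e2] at h4
      have e3 : 8 * K ^ 2 * r2 t θ * (2 * θ - l.b) = 8 * K ^ 2 * r2 t θ * x.b +
          8 * K ^ 2 * r2 t θ * (L''.map Lb.b).sum := by
        have : 2 * θ - l.b = x.b + (L''.map Lb.b).sum := by linarith
        rw [this]; ring
      linarith

/-- the pair inequality at `b`, `h` -/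
def Pr (t θ b h : ℝ) : Prop :=
  ∃ K : ℝ, 0 < K ∧ K * b < π ∧ K * (2 * θ - b) < π / 2 ∧
    ((π / 2 ≤ K * b ∨ K * (Real.cosh t * Real.sin b) * Real.cos (K * b) ≤
        √(r2 t θ) * |Real.cos h| * Real.sin (K * b)) ∧
      2 * lamJ t θ K 0 ≤ Bg (Real.cosh t) (r2 t θ) K 0 b h +
        psi (r2 t θ) K 0 (2 * θ - b) (2 * hJ t θ - h) ∨
      K * b < π / 2 ∧ 2 * lamJ t θ K 0 ≤ psi (r2 t θ) K 0 b h +
        psi (r2 t θ) K 0 (2 * θ - b) (2 * hJ t θ - h))

/-- no contact point if the pair inequality holds for the long lobe -/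
theorem no_cl' {t θ : ℝ} (ht : 0 < t) (h0 : 0 < θ) (h1 : θ < π / 2)
    (hT : Real.tanh t * Real.tan θ ≤ 1) {L : List Lb} (hL : Cl t θ L)
    (hP : ∀ l ∈ L, θ < l.b → l.b ≤ 2 * θ → (l.b = 2 * θ → l.h = 2 * hJ t θ) → Pr t θ l.b l.h) :
    False := by
  obtain ⟨l, hl, hb⟩ := long ht h0 h1 hT hL
  obtain ⟨p1, p2, -⟩ := pair_of_cl ht hL hl (K := 1 / (2 * θ + 1)) (by positivity) (by
    have hb2 := (hL.ok l hl).b0
    rw [div_mul_eq_mul_div, one_mul, div_lt_iff₀ (by positivity)]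
    have := Real.pi_gt_three
    nlinarith)
  obtain ⟨K, hK, hK1, hK2, h⟩ := hP l hl hb p1 p2
  obtain ⟨-, -, h3⟩ := pair_of_cl ht hL hl hK hK2
  rcases h with ⟨hv, h4⟩ | ⟨hv, h4⟩
  · have h5 := lam_big ht (hL.ok l hl) hK hK1 0 hv
    linarith
  · have h5 := lam_nat ht (hL.ok l hl) hK hv 0
    linarith

theorem no_cl {t θ : ℝ} (ht : 0 < t) (h0 : 0 < θ) (h1 : θ < π / 2)
    (hT : Real.tanh t * Real.tan θ ≤ 1)
    (hP : ∀ b h : ℝ, θ < b → b ≤ 2 * θ → (b = 2 * θ → h = 2 * hJ t θ) → Pr t θ b h)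
    {L : List Lb} : ¬ Cl t θ L := fun hL =>
  no_cl' ht h0 h1 hT hL fun l _ hb hb2 hb3 => hP l.b l.h hb hb2 hb3

end Pool.Agent.H97.SU
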