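import Pool.Agent.H97.SU.Tp

/-!
# Pieces

`Pc K r L a e`: `e` is the energy of a path of length `L` and total turning `a` with end moduli `r`,
which stays at modulus at least `r`. It remembers the modulus `ρ` along the path and, for
every cut point, the natural cost of the two parts.
* `Pc_path`: a `C^1` path. * `Pc_merge`: concatenation. * `Pc_flat`: a path of constant modulus.
-/

open Complex MeasureTheory Set Filter Topology
open scoped ComplexConjugate Real

namespace Pool.Agent.H97.SU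

/-- piece of length `L`, total turning `a`, energy `e`, level `r` -/
def Pc (K r L a e : ℝ) : Prop :=
  0 < L ∧ nn K L r r a ≤ e ∧ ∃ ρ : ℝ → ℝ, ContinuousOn ρ (Icc 0 L) ∧ ρ 0 = r ∧ ρ L = r ∧
    (∀ s ∈ Icc 0 L, r ≤ ρ s) ∧
    ∀ s ∈ Ioo 0 L, ∃ α, nn K s r (ρ s) α + nn K (L - s) (ρ s) r (a - α) ≤ e

theorem Pc_merge {K r L₁ L₂ a₁ a₂ e₁ e₂ : ℝ} (hK : 0 < K) (h : K * (L₁ + L₂) < π)
    (P₁ : Pc K r L₁ a₁ e₁) (P₂ : Pc K r L₂ a₂ e₂) :
    Pc K r (L₁ + L₂) (a₁ + a₂) (e₁ + e₂) := by
  obtain ⟨l1, n1, ρ₁, c1, z1, w1, g1, k1⟩ := P₁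
  obtain ⟨l2, n2, ρ₂, c2, z2, w2, g2, k2⟩ := P₂
  have m := nn_merge r r r a₁ a₂ hK l1 l2 h
  refine ⟨by linarith, by linarith, fun s => ρ₁ (min s L₁) + ρ₂ (max s L₁ - L₁) - r, ?_, ?_, ?_,
    ?_, ?_⟩
  · refine ((c1.comp (by fun_prop) ?_).add (c2.comp (by fun_prop) ?_)).sub continuousOn_const
    · intro s hs
      exact ⟨le_min hs.1 l1.le, min_le_right _ _⟩
    · intro s hs
      exact ⟨sub_nonneg.2 (le_max_right _ _), by
        have : max s L₁ ≤ L₁ + L₂ := max_le hs.2 (by linarith)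
        linarith⟩
  · simp only [min_eq_left l1.le, max_eq_right l1.le, sub_self, z1, z2]
    ring
  · have h3 : L₁ ≤ L₁ + L₂ := by linarith
    simp only [min_eq_right h3, max_eq_left h3, add_sub_cancel_left, w1, w2]
  · intro s hs
    have h3 := g1 (min s L₁) ⟨le_min hs.1 l1.le, min_le_right _ _⟩
    have h4 := g2 (max s L₁ - L₁) ⟨sub_nonneg.2 (le_max_right _ _), by
      have : max s L₁ ≤ L₁ + L₂ := max_le hs.2 (by linarith)
      linarith⟩
    simp only
    linarith
  · intro s hs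
    rcases lt_trichotomy s L₁ with h3 | h3 | h3
    · obtain ⟨α, hα⟩ := k1 s ⟨hs.1, h3⟩
      refine ⟨α, ?_⟩
      simp only [min_eq_left h3.le, max_eq_right h3.le, sub_self, z2]
      have e1 : ρ₁ s + r - r = ρ₁ s := by ring
      have e2 : L₁ + L₂ - s = (L₁ - s) + L₂ := by ring
      have e3 : a₁ + a₂ - α = (a₁ - α) + a₂ := by ring
      rw [e1, e2, e3]
      have hK' : K * ((L₁ - s) + L₂) < π := by nlinarith [mul_pos hK hs.1]
      have m2 := nn_merge (ρ₁ s) r r (a₁ - α) a₂ hK (by linarith) l2 hK'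
      linarith
    · refine ⟨a₁, ?_⟩
      subst h3
      simp only [min_self, max_self, sub_self, z2, w1]
      have e1 : r + r - r = r := by ring
      have e2 : s + L₂ - s = L₂ := by ring
      have e3 : a₁ + a₂ - a₁ = a₂ := by ring
      rw [e1, e2, e3]
      linarith
    · obtain ⟨α, hα⟩ := k2 (s - L₁) ⟨by linarith, by linarith [hs.2]⟩
      refine ⟨a₁ + α, ?_⟩
      simp only [min_eq_right h3.le, max_eq_left h3.le, w1]
      have e1 : r + ρ₂ (s - L₁) - r = ρ₂ (s - L₁) := by ring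
      have e2 : L₁ + L₂ - s = L₂ - (s - L₁) := by ring
      have e3 : a₁ + a₂ - (a₁ + α) = a₂ - α := by ring
      rw [e1, e2, e3]
      have e4 : s = L₁ + (s - L₁) := by ring
      have hK' : K * (L₁ + (s - L₁)) < π := by nlinarith [mul_lt_mul_of_pos_left hs.2 hK]
      have m2 := nn_merge r r (ρ₂ (s - L₁)) a₁ α hK l1 (by linarith) hK'
      rw [← e4] at m2
      linarith

private theorem re_angle (p q x y : ℝ) :
    (conj ((p : ℂ) * exp (x * I)) * ((q : ℂ) * exp (y * I))).re = p * q * Real.cos (y - x) := by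
  have e1 : conj ((p : ℂ) * exp (x * I)) * ((q : ℂ) * exp (y * I)) =
      ((p * q : ℝ) : ℂ) * exp ((y - x : ℝ) * I) := by
    rw [map_mul, ← Complex.exp_conj, map_mul, Complex.conj_ofReal, Complex.conj_ofReal,
      Complex.conj_I]
    have : exp ((y - x : ℝ) * I) = exp (x * -I) * exp (y * I) := by
      rw [← Complex.exp_add]
      congr 1
      push_cast
      ring
    rw [this]
    push_cast
    ring
  rw [e1, Complex.re_ofReal_mul, Complex.exp_ofReal_mul_I_re]

private theorem norm_pol {p : ℝ} (hp : 0 ≤ p) (x : ℝ) : ‖(p : ℂ) * exp (x * I)‖ = p := by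
  rw [norm_mul, Complex.norm_exp_ofReal_mul_I, mul_one, Complex.norm_real, Real.norm_eq_abs,
    abs_of_nonneg hp]

theorem Pc_path {g g' : ℝ → ℂ} {K b h r : ℝ} (hK : 0 < K) (hb : 0 < b) (hKb : K * (2 * b) < π)
    (hr : 0 < r) (der : ∀ u : ℝ, HasDerivAt g (g' u) u) (cont : Continuous g')
    (er : g b = (r : ℂ) * exp (h * I)) (el : g (-b) = (r : ℂ) * exp (-(h * I)))
    (ge : ∀ u ∈ Icc (-b) b, r ≤ ‖g u‖) :
    Pc K r (2 * b) (2 * h) (∫ u in (-b)..b, (‖g' u‖ ^ 2 - K ^ 2 * ‖g u‖ ^ 2)) := by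
  have cg : Continuous g := continuous_iff_continuousAt.2 fun u => (der u).continuousAt
  have el' : g (-b) = (r : ℂ) * exp (((-h : ℝ) : ℂ) * I) := by
    rw [el]
    congr 2
    push_cast
    ring
  have nb : ‖g b‖ = r := by rw [er]; exact norm_pol hr.le h
  have nb' : ‖g (-b)‖ = r := by rw [el']; exact norm_pol hr.le (-h)
  have ii : ∀ p q : ℝ, IntervalIntegrable (fun u => ‖g' u‖ ^ 2 - K ^ 2 * ‖g u‖ ^ 2) volume p q :=
    fun p q => ((cont.norm.pow 2).sub (continuous_const.mul (cg.norm.pow 2))).intervalIntegrable _ _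
  refine ⟨by linarith, ?_, fun s => ‖g (s - b)‖, ?_, ?_, ?_, ?_, ?_⟩
  · have h1 := two_sym (f := g) (f' := g') (K := K) (b := b) (α := 2 * h) hK hb hKb
      (fun s _ => der s) cont.continuousOn (by
        rw [nb, nb', er, el', re_angle]
        congr 2
        ring)
    rwa [nb, nb'] at h1
  · exact (cg.comp (continuous_id.sub continuous_const)).norm.continuousOn
  · simp only [zero_sub, nb']
  · have : 2 * b - b = b := by ring
    simp only [this, nb]
  · intro s hs
    exact ge (s - b) ⟨by linarith [hs.1], by linarith [hs.2]⟩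
  · intro s hs
    set z : ℂ := g (s - b) with hz
    have ez : z = ((‖z‖ : ℝ) : ℂ) * exp ((Complex.arg z : ℝ) * I) := by
      rw [Complex.norm_mul_exp_arg_mul_I]
    refine ⟨Complex.arg z + h, ?_⟩
    have h1 := two_point (f := g) (f' := g') (K := K) (a := -b) (c := s - b)
      (α := Complex.arg z + h) hK (by linarith [hs.1]) (by
        have := mul_lt_mul_of_pos_left hs.2 hK
        linarith) der cont (by
        rw [← hz]
        have e1 : (conj (g (-b)) * z).re = r * ‖z‖ * Real.cos (Complex.arg z - (-h)) := by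
          conv_lhs => rw [ez]
          rw [el', re_angle]
        rw [e1, nb']
        congr 2
        ring)
    have h2 := two_point (f := g) (f' := g') (K := K) (a := s - b) (c := b)
      (α := 2 * h - (Complex.arg z + h)) hK (by linarith [hs.2]) (by
        have := mul_pos hK hs.1
        linarith) der cont (by
        rw [← hz]
        have e1 : (conj z * g b).re = ‖z‖ * r * Real.cos (h - Complex.arg z) := by
          conv_lhs => rw [ez]
          rw [er, re_angle]
        rw [e1, nb]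
        congr 2
        ring)
    rw [← hz, nb'] at h1
    rw [← hz, nb] at h2
    have e1 : s - b - -b = s := by ring
    have e2 : b - (s - b) = 2 * b - s := by ring
    rw [e1] at h1
    rw [e2] at h2
    have h3 := intervalIntegral.integral_add_adjacent_intervals (ii (-b) (s - b)) (ii (s - b) b)
    simp only [← hz]
    linarith

theorem Pc_flat {K b h r : ℝ} (hK : 0 < K) (hb : 0 < b) (hKb : K * (2 * b) < π) (hr : 0 < r) :
    Pc K r (2 * b) (2 * h) (2 * r ^ 2 * h ^ 2 / b - 2 * K ^ 2 * r ^ 2 * b) := by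
  have d : ∀ u : ℝ, HasDerivAt (fun u : ℝ => (r : ℂ) * exp ((h / b * u : ℝ) * I))
      ((r : ℂ) * (exp ((h / b * u : ℝ) * I) * ((h / b : ℝ) * I))) u := by
    intro u
    have h1 : HasDerivAt (fun u : ℝ => (((h / b * u : ℝ) : ℂ)) * I) (((h / b : ℝ) : ℂ) * I) u := by
      have h2 : HasDerivAt (fun u : ℝ => h / b * u) (h / b) u := by
        simpa using (hasDerivAt_id u).const_mul (h / b)
      exact h2.ofReal_comp.mul_const I
    exact (h1.cexp).const_mul _
  have nrm : ∀ u : ℝ, ‖(r : ℂ) * exp ((h / b * u : ℝ) * I)‖ = r := fun u => norm_pol hr.le _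
  have nrm' : ∀ u : ℝ, ‖(r : ℂ) * (exp ((h / b * u : ℝ) * I) * ((h / b : ℝ) * I))‖ ^ 2 =
      r ^ 2 * (h / b) ^ 2 := by
    intro u
    rw [norm_mul, norm_mul, Complex.norm_exp_ofReal_mul_I, norm_mul, Complex.norm_I,
      Complex.norm_real, Complex.norm_real, Real.norm_eq_abs, Real.norm_eq_abs, one_mul, mul_one,
      mul_pow, sq_abs, sq_abs]
  have h1 := Pc_path (g := fun u : ℝ => (r : ℂ) * exp ((h / b * u : ℝ) * I))
    (g' := fun u : ℝ => (r : ℂ) * (exp ((h / b * u : ℝ) * I) * ((h / b : ℝ) * I)))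
    (K := K) (b := b) (h := h) (r := r) hK hb hKb hr d (by fun_prop) (by
      have : h / b * b = h := div_mul_cancel₀ _ hb.ne'
      simp only [this]) (by
      have : h / b * -b = -h := by field_simp
      simp only [this]
      congr 2
      push_cast
      ring) (fun u _ => by simp only [nrm]; exact le_rfl)
  have e1 : ∫ u in (-b)..b, (‖(r : ℂ) * (exp ((h / b * u : ℝ) * I) * ((h / b : ℝ) * I))‖ ^ 2 -
      K ^ 2 * ‖(r : ℂ) * exp ((h / b * u : ℝ) * I)‖ ^ 2) =
      2 * r ^ 2 * h ^ 2 / b - 2 * K ^ 2 * r ^ 2 * b := by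
    simp only [nrm, nrm']
    rw [intervalIntegral.integral_const, smul_eq_mul]
    field_simp
    ring
  rwa [e1] at h1

end Pool.Agent.H97.SU
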