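import Pool.Agent.H97.SU.Ps

/-!
# `Pr` from the two scalar inequalities `S0 >= 0`, `S1 >= 0`

By `co_eq` and `S0_eq` the pair functional is
`L (γ - κ C / L)^2 + C^2 S0 + S^2 D0 + 2 G (C^2 c^2 - S^2 s^2) sin^2 (h - hJ)` with
`κ = K^2 sin B sin b / N`, and `C^2 S0 + S^2 D0 = C^2 (S0 + T^2 D0) >= 0` since it is so for
`T^2 = 0` and `T^2 = (16/25) cot^2 θ`.
-/

open Complex MeasureTheory Set Filter Topology
open scoped ComplexConjugate Real

namespace Pool.Agent.H97.SU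

open Pool.Agent.H36.SZ Pool.Agent.H15.PM Pool.Agent.H12.PR

theorem sin_two_le {θ b K : ℝ} (hθ : π / 4 ≤ θ) (hK : 1 ≤ K) (hb : θ < b) (hKp : 0 < 2 * θ - b)
    (hKb : K * b < π / 2) : Real.sin (2 * (K * b)) ≤ Real.sin (2 * (K * (2 * θ - b))) := by
  have hpi := Real.pi_pos
  have hK0 : 0 < K := by linarith
  have hp0 : 0 < K * (2 * θ - b) := mul_pos hK0 hKp
  have hlt : K * (2 * θ - b) < K * b := mul_lt_mul_of_pos_left (by linarith) hK0
  have hθ2 : π / 4 ≤ K * θ := by nlinarith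
  have e : Real.sin (2 * (K * (2 * θ - b))) - Real.sin (2 * (K * b)) =
      2 * Real.sin (K * b - K * (2 * θ - b)) * (-Real.cos (2 * (K * θ))) := by
    rw [Real.sin_sub_sin]
    have f1 : (2 * (K * (2 * θ - b)) - 2 * (K * b)) / 2 = -(K * b - K * (2 * θ - b)) := by ring
    have f2 : (2 * (K * (2 * θ - b)) + 2 * (K * b)) / 2 = 2 * (K * θ) := by ring
    rw [f1, f2, Real.sin_neg]
    ring
  have w1 : 0 ≤ Real.sin (K * b - K * (2 * θ - b)) :=
    Real.sin_nonneg_of_nonneg_of_le_pi (by linarith) (by linarith)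
  have w2 : 0 ≤ -Real.cos (2 * (K * θ)) := by
    have h3 : 2 * (K * θ) = K * b + K * (2 * θ - b) := by ring
    have := Real.cos_nonpos_of_pi_div_two_le_of_le (x := 2 * (K * θ)) (by linarith)
      (by rw [h3]; linarith)
    linarith
  have := mul_nonneg w1 w2
  linarith

/-- `S s <= (4/5) C c` -/
theorem Ss_le {t θ : ℝ} (h0 : 0 < θ) (h1 : θ < π / 2)
    (hT : Real.tanh t * Real.tan θ ≤ 4 / 5) :
    Real.sinh t * Real.sin θ ≤ 4 / 5 * (Real.cosh t * Real.cos θ) := by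
  have hc : 0 < Real.cos θ := Real.cos_pos_of_mem_Ioo ⟨by linarith, h1⟩
  have hC := Real.cosh_pos t
  rw [Real.tanh_eq_sinh_div_cosh, Real.tan_eq_sin_div_cos, div_mul_div_comm,
    div_le_iff₀ (by positivity)] at hT
  exact hT

theorem comb_nonneg {t θ b K : ℝ} (ht : 0 < t) (h0 : 0 < θ) (h1 : θ < π / 2)
    (hT : Real.tanh t * Real.tan θ ≤ 4 / 5) (hS0 : 0 ≤ S0 θ b K) (hS1 : 0 ≤ S1 θ b K) :
    0 ≤ Real.cosh t ^ 2 * S0 θ b K + Real.sinh t ^ 2 * D0 θ b K := by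
  have hc : 0 < Real.cos θ := Real.cos_pos_of_mem_Ioo ⟨by linarith, h1⟩
  have hs : 0 < Real.sin θ := Real.sin_pos_of_pos_of_lt_pi h0 (by linarith [Real.pi_pos])
  have hC := Real.cosh_pos t
  have hS : 0 < Real.sinh t := Real.sinh_pos_iff.2 ht
  have h3 := Ss_le h0 h1 hT
  have h4 : (Real.sinh t * Real.sin θ) ^ 2 ≤ (4 / 5 * (Real.cosh t * Real.cos θ)) ^ 2 :=
    pow_le_pow_left₀ (by positivity) h3 2
  have h5 : 0 ≤ 25 / 16 * (Real.sin θ / Real.cos θ) ^ 2 * Real.sinh t ^ 2 * S1 θ b K +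
      (Real.cosh t ^ 2 - 25 / 16 * (Real.sin θ / Real.cos θ) ^ 2 * Real.sinh t ^ 2) *
        S0 θ b K := by
    have h6 : 0 ≤ Real.cosh t ^ 2 - 25 / 16 * (Real.sin θ / Real.cos θ) ^ 2 * Real.sinh t ^ 2 := by
      rw [div_pow]
      have : 25 / 16 * (Real.sin θ ^ 2 / Real.cos θ ^ 2) * Real.sinh t ^ 2 =
          25 / 16 * (Real.sinh t * Real.sin θ) ^ 2 / Real.cos θ ^ 2 := by
        field_simp
      rw [this, sub_nonneg, div_le_iff₀ (by positivity)]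
      nlinarith [h4]
    positivity
  have e : 25 / 16 * (Real.sin θ / Real.cos θ) ^ 2 * Real.sinh t ^ 2 * S1 θ b K +
      (Real.cosh t ^ 2 - 25 / 16 * (Real.sin θ / Real.cos θ) ^ 2 * Real.sinh t ^ 2) *
        S0 θ b K = Real.cosh t ^ 2 * S0 θ b K + Real.sinh t ^ 2 * D0 θ b K := by
    unfold S1
    field_simp
    ring
  rwa [e] at h5

theorem Pr_of_S {t θ b K : ℝ} (ht : 0 < t) (h0 : π / 4 ≤ θ) (h1 : θ < π / 2)
    (hT : Real.tanh t * Real.tan θ ≤ 4 / 5) (hb : θ < b) (hb2 : b < 2 * θ) (hK : 1 ≤ K)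
    (hKb : K * b < π) (hKp : K * (2 * θ - b) < π / 2) (hS0 : 0 ≤ S0 θ b K)
    (hS1 : 0 ≤ S1 θ b K) (h : ℝ) : Pr t θ b h := by
  have hpi := Real.pi_pos
  have hθ : 0 < θ := by linarith
  have hb0 : 0 < b := by linarith
  have hK0 : 0 < K := by linarith
  refine pr_of_co ht hθ h1 (by linarith) hb hb2 hK hKb hKp
    (fun hB => sin_two_le h0 hK hb (by linarith) hB) (fun h' hc => ?_) h
  have e := co_eq ht hθ h1 hb0 hK0 hKb hb2 hKp hc
  obtain ⟨hL, hC0⟩ := S0_eq h1 hb0 hK0 hKb hb2 hKp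
  have hcomb := comb_nonneg ht hθ h1 hT hS0 hS1
  have hc0 : 0 < Real.cos θ := Real.cos_pos_of_mem_Ioo ⟨by linarith, h1⟩
  have hs0 : 0 < Real.sin θ := Real.sin_pos_of_pos_of_lt_pi hθ (by linarith)
  have hC := Real.cosh_pos t
  have hS : 0 < Real.sinh t := Real.sinh_pos_iff.2 ht
  have h3 := Ss_le hθ h1 hT
  have h4 : (Real.sinh t * Real.sin θ) ^ 2 ≤ (4 / 5 * (Real.cosh t * Real.cos θ)) ^ 2 :=
    pow_le_pow_left₀ (by positivity) h3 2
  have hdd : 0 ≤ Real.cosh t ^ 2 * Real.cos θ ^ 2 - Real.sinh t ^ 2 * Real.sin θ ^ 2 := by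
    have : 0 < (Real.cosh t * Real.cos θ) ^ 2 := by positivity
    nlinarith [h4]
  have hβ0 : 0 < K * (2 * θ - b) := mul_pos hK0 (by linarith)
  have sβ : 0 < Real.sin (K * (2 * θ - b)) := Real.sin_pos_of_pos_of_lt_pi hβ0 (by linarith)
  have cβ : 0 < Real.cos (K * (2 * θ - b)) := Real.cos_pos_of_mem_Ioo ⟨by linarith, hKp⟩
  have hG : 0 < Gf K (K * (2 * θ - b)) := by unfold Gf; positivity
  have hlast : 0 ≤ 2 * Gf K (K * (2 * θ - b)) * (Real.cosh t ^ 2 * Real.cos θ ^ 2 -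
          Real.sinh t ^ 2 * Real.sin θ ^ 2) * Real.sin (h' - hJ t θ) ^ 2 := by positivity
  set L := Lf K (K * b) (K * (2 * θ - b))
  set γ := √(r2 t θ) * Real.cos h'
  have hk : 2 * K ^ 2 * Real.sin (K * b) * Real.sin b * Real.cosh t * γ / Nf (K * b) =
      2 * (K ^ 2 * Real.sin (K * b) * Real.sin b / Nf (K * b)) * Real.cosh t * γ := by ring
  rw [hk, hC0] at e
  set κ := K ^ 2 * Real.sin (K * b) * Real.sin b / Nf (K * b)
  have hsq : L * γ ^ 2 - 2 * κ * Real.cosh t * γ + Real.cosh t ^ 2 * (κ ^ 2 / L) =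
      (L * γ - κ * Real.cosh t) ^ 2 / L := by
    field_simp
    ring
  have hsq0 : 0 ≤ (L * γ - κ * Real.cosh t) ^ 2 / L := by positivity
  have e2 : Real.cosh t ^ 2 * (S0 θ b K + κ ^ 2 / L) =
      Real.cosh t ^ 2 * S0 θ b K + Real.cosh t ^ 2 * (κ ^ 2 / L) := by ring
  rw [e2] at e
  linarith

end Pool.Agent.H97.SU
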