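import Pool.Agent.H97.SU.Rd
import Pool.Agent.H12.PR.D

/-!
# The closed form of the pair functional, and `Pr` from `S0`

`co_eq`: with `γ = r cos h >= 0`, `B = K b`, `β = K (2 θ - b)`, `N = sin B - B cos B`:
`Bg + psi - 2 lamJ = L γ^2 - 2 K^2 sin B sin b C γ / N + C^2 C0 + S^2 D0 + 2 G (C^2 c^2 - S^2 s^2) sin^2 (h - hJ)`.
`S0 = C0 - (K^2 sin B sin b / N)^2 / L`, hence `Pr_of_S`.
-/

open Complex MeasureTheory Set Filter Topology
open scoped ComplexConjugate Real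

namespace Pool.Agent.H97.SU

open Pool.Agent.H36.SZ Pool.Agent.H15.PM Pool.Agent.H12.PR

/-- the constant term at `T = 0` -/
noncomputable def C0 (θ b K : ℝ) : ℝ :=
  K ^ 2 * (θ + Real.sin θ * Real.cos θ) - (θ - Real.sin θ * Real.cos θ) +
    K * Real.cos θ ^ 2 * (Real.cos (K * b) / Real.sin (K * b) -
      2 * (Real.sin (K * (2 * θ - b)) / Real.cos (K * (2 * θ - b))) -
      Real.cos (K * (2 * θ - b)) / Real.sin (K * (2 * θ - b))) +
    K ^ 3 * Real.cos (K * b) * Real.sin b ^ 2 / Nf (K * b)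

theorem Nf_pos {B : ℝ} (h0 : 0 < B) (h1 : B < π) : 0 < Nf B := by
  have h := sin_cos_le (s := 0) (t := B) le_rfl zero_le_one h0.le h1.le
  unfold Nf
  rcases lt_or_ge B (π / 2) with h2 | h2
  · have hc : 0 < Real.cos B := Real.cos_pos_of_mem_Ioo ⟨by linarith, h2⟩
    have := Real.lt_tan h0 h2
    rw [Real.tan_eq_sin_div_cos, lt_div_iff₀ hc] at this
    linarith
  · have hs : 0 < Real.sin B := Real.sin_pos_of_pos_of_lt_pi h0 h1
    have hc : Real.cos B ≤ 0 := Real.cos_nonpos_of_pi_div_two_le_of_le h2 (by linarith)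
    nlinarith

theorem sub_sin_cos_pos {B : ℝ} (h0 : 0 < B) : 0 < B - Real.sin B * Real.cos B := by
  have h := Real.sin_lt (x := 2 * B) (by linarith)
  rw [Real.sin_two_mul] at h
  linarith

private theorem ps_alg {K b p B θ sB cB sβ cβ s c s₁ N C S ρ γ y : ℝ} (hN : N ≠ 0)
    (hNe : N = sB - B * cB) (hsB : sB ≠ 0) (hsβ : sβ ≠ 0) (hcβ : cβ ≠ 0)
    (hB : sB ^ 2 + cB ^ 2 = 1) (hβ : sβ ^ 2 + cβ ^ 2 = 1) (hS : C ^ 2 - S ^ 2 = 1)
    (hρ : ρ = C ^ 2 * c ^ 2 + S ^ 2 * s ^ 2) (hbp : b + p = 2 * θ) :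
    K * (B * sB * γ ^ 2 - 2 * K * sB * γ * (C * s₁) + K ^ 2 * cB * (C * s₁) ^ 2) / N +
        K * (cB / sB) * (ρ - γ ^ 2) + K ^ 2 * ρ * b +
      (K * (ρ * cβ ^ 2 - 2 * C ^ 2 * c ^ 2 + 2 * (C ^ 2 * c ^ 2 - S ^ 2 * s ^ 2) * y + γ ^ 2) /
        (sβ * cβ) + K ^ 2 * ρ * p) -
      2 * ((θ * (C ^ 2 + S ^ 2) - s * c) / 2 - K ^ 2 * (θ * (C ^ 2 + S ^ 2) + s * c) / 2 +
        K ^ 2 * ρ * θ) =
    (K / (sβ * cβ) + K * (B - sB * cB) / (N * sB)) * γ ^ 2 - 2 * K ^ 2 * sB * s₁ * C * γ / N +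
      C ^ 2 * (K ^ 2 * (θ + s * c) - (θ - s * c) +
        K * c ^ 2 * (cB / sB - 2 * (sβ / cβ) - cβ / sβ) + K ^ 3 * cB * s₁ ^ 2 / N) +
      S ^ 2 * (K ^ 2 * (θ - s * c) - (θ + s * c) + K * s ^ 2 * (cB / sB + cβ / sβ)) +
      2 * (K / (sβ * cβ)) * (C ^ 2 * c ^ 2 - S ^ 2 * s ^ 2) * y := by
  -- the coefficient of `γ ^ 2`
  have e1 : K * (B * sB * γ ^ 2 - 2 * K * sB * γ * (C * s₁) + K ^ 2 * cB * (C * s₁) ^ 2) / N =
      K * B * sB / N * γ ^ 2 - 2 * K ^ 2 * sB * s₁ * C * γ / N +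
        C ^ 2 * (K ^ 3 * cB * s₁ ^ 2 / N) := by
    field_simp
  have e2 : K * (B - sB * cB) / (N * sB) = K * B * sB / N - K * (cB / sB) := by
    have hcB : cB ^ 2 = 1 - sB ^ 2 := by linarith
    field_simp
    rw [hNe]
    ring_nf
    rw [hcB]
    ring
  have e3 : K * (ρ * cβ ^ 2 - 2 * C ^ 2 * c ^ 2 + 2 * (C ^ 2 * c ^ 2 - S ^ 2 * s ^ 2) * y +
      γ ^ 2) / (sβ * cβ) = K * ρ * (cβ / sβ) - C ^ 2 * (2 * K * c ^ 2 * (sβ / cβ + cβ / sβ)) +
      2 * (K / (sβ * cβ)) * (C ^ 2 * c ^ 2 - S ^ 2 * s ^ 2) * y + K / (sβ * cβ) * γ ^ 2 := by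
    have h1 : 1 / (sβ * cβ) = sβ / cβ + cβ / sβ := by
      field_simp
      linarith
    have h2 : cβ ^ 2 / (sβ * cβ) = cβ / sβ := by field_simp
    have h3 : K * (ρ * cβ ^ 2 - 2 * C ^ 2 * c ^ 2 + 2 * (C ^ 2 * c ^ 2 - S ^ 2 * s ^ 2) * y +
      γ ^ 2) / (sβ * cβ) = K * ρ * (cβ ^ 2 / (sβ * cβ)) -
        C ^ 2 * (2 * K * c ^ 2 * (1 / (sβ * cβ))) +
        2 * (K / (sβ * cβ)) * (C ^ 2 * c ^ 2 - S ^ 2 * s ^ 2) * y + K / (sβ * cβ) * γ ^ 2 := by
      ring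
    rw [h3, h1, h2]
  rw [e1, e2, e3]
  have hp : p = 2 * θ - b := by linarith
  subst hp
  rw [hρ]
  have hsc : s * c = s * c * (C ^ 2 - S ^ 2) := by rw [hS, mul_one]
  generalize K * B * sB / N = q₁
  generalize K ^ 3 * cB * s₁ ^ 2 / N = q₂
  generalize 2 * K ^ 2 * sB * s₁ * C * γ / N = q₃
  generalize cB / sB = q₄
  generalize cβ / sβ = q₅
  generalize sβ / cβ = q₆
  generalize K / (sβ * cβ) = q₇
  linear_combination (K ^ 2 + 1) * hsc

/-- the closed form of the pair functional -/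
theorem co_eq {t θ b K h : ℝ} (ht : 0 < t) (h0 : 0 < θ) (h1 : θ < π / 2)
    (hb : 0 < b) (hK : 0 < K) (hKb : K * b < π) (hp : b < 2 * θ)
    (hKp : K * (2 * θ - b) < π / 2) (hc : 0 ≤ Real.cos h) :
    Bg (Real.cosh t) (r2 t θ) K 0 b h + psi (r2 t θ) K 0 (2 * θ - b) (2 * hJ t θ - h) -
        2 * lamJ t θ K 0 =
      Lf K (K * b) (K * (2 * θ - b)) * (√(r2 t θ) * Real.cos h) ^ 2 -
        2 * K ^ 2 * Real.sin (K * b) * Real.sin b * Real.cosh t * (√(r2 t θ) * Real.cos h) /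
          Nf (K * b) +
        Real.cosh t ^ 2 * C0 θ b K + Real.sinh t ^ 2 * D0 θ b K +
        2 * Gf K (K * (2 * θ - b)) * (Real.cosh t ^ 2 * Real.cos θ ^ 2 -
          Real.sinh t ^ 2 * Real.sin θ ^ 2) * Real.sin (h - hJ t θ) ^ 2 := by
  have hpi := Real.pi_pos
  have hr := r2_pos ht θ
  have hB0 : 0 < K * b := mul_pos hK hb
  have hβ0 : 0 < K * (2 * θ - b) := mul_pos hK (by linarith)
  have hN := Nf_pos hB0 hKb
  have sB : 0 < Real.sin (K * b) := Real.sin_pos_of_pos_of_lt_pi hB0 hKb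
  have sβ : 0 < Real.sin (K * (2 * θ - b)) := Real.sin_pos_of_pos_of_lt_pi hβ0 (by linarith)
  have cβ : 0 < Real.cos (K * (2 * θ - b)) := Real.cos_pos_of_mem_Ioo ⟨by linarith, hKp⟩
  have hρ : r2 t θ = Real.cosh t ^ 2 * Real.cos θ ^ 2 + Real.sinh t ^ 2 * Real.sin θ ^ 2 := by
    have h5 := Real.sin_sq_add_cos_sq θ
    have h6 := Real.cosh_sq t
    have h7 : Real.sin θ ^ 2 = 1 - Real.cos θ ^ 2 := by linarith
    unfold r2
    rw [h7, h6]
    ring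
  have hρ' : r2 t θ = Real.sinh t ^ 2 + Real.cos θ ^ 2 := rfl
  have hch : Real.cosh (2 * t) = Real.cosh t ^ 2 + Real.sinh t ^ 2 := Real.cosh_two_mul t
  have hγ : (√(r2 t θ) * Real.cos h) ^ 2 = r2 t θ * Real.cos h ^ 2 := by
    rw [mul_pow, Real.sq_sqrt hr.le]
  -- the second angle
  have h2 : r2 t θ * Real.cos (2 * (2 * hJ t θ - h)) =
      2 * (Real.cosh t ^ 2 * Real.cos θ ^ 2 - Real.sinh t ^ 2 * Real.sin θ ^ 2) *
        (1 - 2 * Real.sin (h - hJ t θ) ^ 2) - 2 * (√(r2 t θ) * Real.cos h) ^ 2 + r2 t θ := by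
    have e1 : Real.cos (2 * (2 * hJ t θ - h)) + Real.cos (2 * h) =
        2 * Real.cos (2 * hJ t θ) * Real.cos (2 * (h - hJ t θ)) := by
      rw [Real.cos_add_cos, ← Real.cos_neg (2 * (h - hJ t θ))]
      congr 2
      · congr 1
        ring
      · ring
    have e2 : r2 t θ * Real.cos (2 * hJ t θ) =
        Real.cosh t ^ 2 * Real.cos θ ^ 2 - Real.sinh t ^ 2 * Real.sin θ ^ 2 := by
      rw [hJ_cos ht h0 h1]
      field_simp
    have e3 : Real.cos (2 * (h - hJ t θ)) = 1 - 2 * Real.sin (h - hJ t θ) ^ 2 := by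
      have := Real.cos_sq_add_sin_sq (h - hJ t θ)
      rw [Real.cos_two_mul]
      linarith
    have e4 : Real.cos (2 * h) = 2 * Real.cos h ^ 2 - 1 := Real.cos_two_mul h
    rw [hγ, ← e3]
    have e5 : Real.cos (2 * (2 * hJ t θ - h)) =
        2 * Real.cos (2 * hJ t θ) * Real.cos (2 * (h - hJ t θ)) - (2 * Real.cos h ^ 2 - 1) := by
      rw [← e4]
      linarith
    rw [e5, ← e2]
    ring
  have halg := ps_alg (K := K) (b := b) (p := 2 * θ - b) (B := K * b) (θ := θ)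
    (sB := Real.sin (K * b)) (cB := Real.cos (K * b)) (sβ := Real.sin (K * (2 * θ - b)))
    (cβ := Real.cos (K * (2 * θ - b))) (s := Real.sin θ) (c := Real.cos θ) (s₁ := Real.sin b)
    (N := Nf (K * b)) (C := Real.cosh t) (S := Real.sinh t) (ρ := r2 t θ)
    (γ := √(r2 t θ) * Real.cos h) (y := Real.sin (h - hJ t θ) ^ 2) hN.ne' rfl sB.ne' sβ.ne' cβ.ne'
    (Real.sin_sq_add_cos_sq _) (Real.sin_sq_add_cos_sq _) (by
      have h6 := Real.cosh_sq t
      linarith) hρ (by ring)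
  have e1 : Bg (Real.cosh t) (r2 t θ) K 0 b h =
      K * (K * b * Real.sin (K * b) * (√(r2 t θ) * Real.cos h) ^ 2 -
        2 * K * Real.sin (K * b) * (√(r2 t θ) * Real.cos h) * (Real.cosh t * Real.sin b) +
        K ^ 2 * Real.cos (K * b) * (Real.cosh t * Real.sin b) ^ 2) / Nf (K * b) +
        K * (Real.cos (K * b) / Real.sin (K * b)) * (r2 t θ - (√(r2 t θ) * Real.cos h) ^ 2) +
        K ^ 2 * r2 t θ * b := by
    unfold Bg Ev Nf
    rw [abs_of_nonneg hc, hγ]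
    have : Real.sin h ^ 2 = 1 - Real.cos h ^ 2 := by
      have := Real.sin_sq_add_cos_sq h
      linarith
    rw [this]
    ring
  have e2 : psi (r2 t θ) K 0 (2 * θ - b) (2 * hJ t θ - h) =
      K * (r2 t θ * Real.cos (K * (2 * θ - b)) ^ 2 - 2 * Real.cosh t ^ 2 * Real.cos θ ^ 2 +
        2 * (Real.cosh t ^ 2 * Real.cos θ ^ 2 - Real.sinh t ^ 2 * Real.sin θ ^ 2) *
          Real.sin (h - hJ t θ) ^ 2 + (√(r2 t θ) * Real.cos h) ^ 2) /
        (Real.sin (K * (2 * θ - b)) * Real.cos (K * (2 * θ - b))) +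
        K ^ 2 * r2 t θ * (2 * θ - b) := by
    unfold psi
    have e3 : r2 t θ * K * (Real.cos (2 * (K * (2 * θ - b))) -
        Real.cos (2 * (2 * hJ t θ - h))) =
        K * (r2 t θ * Real.cos (2 * (K * (2 * θ - b))) -
          r2 t θ * Real.cos (2 * (2 * hJ t θ - h))) := by ring
    rw [e3, h2, Real.cos_two_mul, Real.sin_two_mul]
    have e4 : K * (r2 t θ * (2 * Real.cos (K * (2 * θ - b)) ^ 2 - 1) -
        (2 * (Real.cosh t ^ 2 * Real.cos θ ^ 2 - Real.sinh t ^ 2 * Real.sin θ ^ 2) *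
          (1 - 2 * Real.sin (h - hJ t θ) ^ 2) - 2 * (√(r2 t θ) * Real.cos h) ^ 2 + r2 t θ)) =
        2 * (K * (r2 t θ * Real.cos (K * (2 * θ - b)) ^ 2 - 2 * Real.cosh t ^ 2 * Real.cos θ ^ 2 +
        2 * (Real.cosh t ^ 2 * Real.cos θ ^ 2 - Real.sinh t ^ 2 * Real.sin θ ^ 2) *
          Real.sin (h - hJ t θ) ^ 2 + (√(r2 t θ) * Real.cos h) ^ 2)) := by
      generalize √(r2 t θ) * Real.cos h = γ
      rw [hρ]
      ring
    rw [e4]
    field_simp
    ring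
  have e3 : lamJ t θ K 0 = (θ * (Real.cosh t ^ 2 + Real.sinh t ^ 2) - Real.sin θ * Real.cos θ) / 2 -
      K ^ 2 * (θ * (Real.cosh t ^ 2 + Real.sinh t ^ 2) + Real.sin θ * Real.cos θ) / 2 +
      K ^ 2 * r2 t θ * θ := by
    unfold lamJ
    rw [hch]
    ring
  rw [e1, e2, e3, halg]
  unfold C0 D0 Lf Gf
  ring

/-- completing the square -/
theorem S0_eq {θ b K : ℝ} (h1 : θ < π / 2) (hb : 0 < b) (hK : 0 < K)
    (hKb : K * b < π) (hp : b < 2 * θ) (hKp : K * (2 * θ - b) < π / 2) :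
    0 < Lf K (K * b) (K * (2 * θ - b)) ∧
    C0 θ b K = S0 θ b K + (K ^ 2 * Real.sin (K * b) * Real.sin b / Nf (K * b)) ^ 2 /
      Lf K (K * b) (K * (2 * θ - b)) := by
  have hpi := Real.pi_pos
  have hB0 : 0 < K * b := mul_pos hK hb
  have hβ0 : 0 < K * (2 * θ - b) := mul_pos hK (by linarith)
  have hN := Nf_pos hB0 hKb
  have hM := sub_sin_cos_pos hB0
  have sB : 0 < Real.sin (K * b) := Real.sin_pos_of_pos_of_lt_pi hB0 hKb
  have sβ : 0 < Real.sin (K * (2 * θ - b)) := Real.sin_pos_of_pos_of_lt_pi hβ0 (by linarith)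
  have cβ : 0 < Real.cos (K * (2 * θ - b)) := Real.cos_pos_of_mem_Ioo ⟨by linarith, hKp⟩
  have hL : 0 < Lf K (K * b) (K * (2 * θ - b)) := by unfold Lf; positivity
  refine ⟨hL, ?_⟩
  have hq := Real.sin_sq_add_cos_sq (K * b)
  have key : K ^ 3 * Real.cos (K * b) * Real.sin b ^ 2 / Nf (K * b) =
      -(K ^ 3 * Real.sin b ^ 2 * Rf (K * b) (K * (2 * θ - b))) +
      (K ^ 2 * Real.sin (K * b) * Real.sin b / Nf (K * b)) ^ 2 /
      Lf K (K * b) (K * (2 * θ - b)) := by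
    have hD : 0 < Nf (K * b) * Real.sin (K * b) + Real.sin (K * (2 * θ - b)) *
        Real.cos (K * (2 * θ - b)) * (K * b - Real.sin (K * b) * Real.cos (K * b)) := by
      positivity
    have hLe : Lf K (K * b) (K * (2 * θ - b)) = K * (Nf (K * b) * Real.sin (K * b) +
        Real.sin (K * (2 * θ - b)) * Real.cos (K * (2 * θ - b)) *
          (K * b - Real.sin (K * b) * Real.cos (K * b))) /
        (Real.sin (K * (2 * θ - b)) * Real.cos (K * (2 * θ - b)) * Nf (K * b) *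
          Real.sin (K * b)) := by
      unfold Lf
      field_simp
    rw [hLe]
    unfold Rf
    set D := Nf (K * b) * Real.sin (K * b) + Real.sin (K * (2 * θ - b)) *
        Real.cos (K * (2 * θ - b)) * (K * b - Real.sin (K * b) * Real.cos (K * b)) with hDdef
    set sβ' := Real.sin (K * (2 * θ - b))
    set cβ' := Real.cos (K * (2 * θ - b))
    set sB' := Real.sin (K * b) with hsB'
    set cB' := Real.cos (K * b) with hcB'
    have hNe : Nf (K * b) = sB' - K * b * cB' := rfl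
    set N := Nf (K * b)
    have hBc : K * b * cB' = sB' - N := by linarith
    field_simp
    rw [hDdef]
    have hcB2 : cB' ^ 2 = 1 - sB' ^ 2 := by linarith
    have e5 : cB' * (N * sB' + sβ' * cβ' * (K * b - sB' * cB')) =
        N * sB' * cB' + sβ' * cβ' * (K * b * cB' - sB' * cB' ^ 2) := by ring
    have e6 : cB' * (N * sB' + sβ' * cβ' * (K * b - sB' * cB')) =
        N * sB' * cB' + sβ' * cβ' * (sB' ^ 3 - N) := by
      rw [e5, hBc, hcB2]
      ring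
    have e7 : K ^ 2 * cB' * (N * sB' + sβ' * cβ' * (K * b - sB' * cB')) =
      K ^ 2 * (cB' * (N * sB' + sβ' * cβ' * (K * b - sB' * cB'))) := by ring
    nlinarith [e6]
  unfold C0 S0
  rw [key]
  ring

end Pool.Agent.H97.SU
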