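import Pool.Agent.H97.SU.Cz

/-!
# The pair inequality: only the CO form matters

`pr_of_co`: for `K >= 1`, `θ < b < 2 θ`, `p = 2 θ - b`: if the pair inequality holds with the CO
form of the long lobe for all `h` with `cos h >= 0` (whether the form is active or not), and
`sin 2Kb <= sin 2Kp` in case `K b < π/2`, then `Pr t θ b h` for all `h`.

PROOF. Everything is `π`-periodic in `h` (`u = 0`). If the form is not active, `B = K b < π/2` and
`r |cos h| < K C sin b cot B =: r cos h_v`; `cos h_v <= cos hJ` since `K sin b cot B <= cos b <= c`,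
`r cos hJ = C c`. The natural pair `Φ h = psi b h + psi p (2 hJ - h)` satisfies
`Φ h >= Φ h'`, `h' = arccos |cos h| ∈ [h_v, π/2]` (`sin 4 hJ >= 0`), `Φ` is nondecreasing on
`[hJ, π/2]`, and at `h_v` the natural and the CO form agree.
-/

open Complex MeasureTheory Set Filter Topology
open scoped ComplexConjugate Real

namespace Pool.Agent.H97.SU

open Pool.Agent.H36.SZ Pool.Agent.H15.PM

theorem sin_cos_le {s t : ℝ} (h0 : 0 ≤ s) (h1 : s ≤ 1) (ht : 0 ≤ t) (ht' : t ≤ π) :
    Real.sin (s * t) * Real.cos t ≤ s * Real.cos (s * t) * Real.sin t := by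
  have hd : ∀ x : ℝ, HasDerivAt (fun t : ℝ => s * Real.cos (s * t) * Real.sin t -
      Real.sin (s * t) * Real.cos t) ((1 - s ^ 2) * Real.sin (s * x) * Real.sin x) x := by
    intro x
    have e0 : HasDerivAt (fun t : ℝ => s * t) s x := by
      simpa using (hasDerivAt_id x).const_mul s
    have e1 : HasDerivAt (fun t : ℝ => Real.cos (s * t)) (-Real.sin (s * x) * s) x := e0.cos
    have e2 : HasDerivAt (fun t : ℝ => Real.sin (s * t)) (Real.cos (s * x) * s) x := e0.sin
    have e3 := ((e1.const_mul s).mul (Real.hasDerivAt_sin x)).sub (e2.mul (Real.hasDerivAt_cos x))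
    refine e3.congr_deriv ?_
    ring
  have hm : MonotoneOn (fun t : ℝ => s * Real.cos (s * t) * Real.sin t -
      Real.sin (s * t) * Real.cos t) (Icc 0 π) := by
    refine monotoneOn_of_deriv_nonneg (convex_Icc 0 π) ?_ ?_ ?_
    · exact fun x _ => (hd x).continuousAt.continuousWithinAt
    · exact fun x _ => (hd x).differentiableAt.differentiableWithinAt
    · intro x hx
      rw [interior_Icc] at hx
      rw [(hd x).deriv]
      have a1 : 0 ≤ Real.sin x := Real.sin_nonneg_of_nonneg_of_le_pi hx.1.le hx.2.le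
      have a2 : 0 ≤ Real.sin (s * x) := Real.sin_nonneg_of_nonneg_of_le_pi (mul_nonneg h0 hx.1.le)
        (by nlinarith [hx.1, hx.2])
      have a3 : 0 ≤ 1 - s ^ 2 := by nlinarith
      positivity
  have h := hm ⟨le_refl 0, Real.pi_pos.le⟩ ⟨ht, ht'⟩ ht
  simp only [mul_zero, Real.sin_zero, Real.cos_zero, zero_mul, sub_zero] at h
  linarith

/-- `K sin b cot (K b) <= cos b` -/
theorem K_cot_le {K b : ℝ} (hK : 1 ≤ K) (hb : 0 ≤ b) (hKb : K * b ≤ π) :
    K * Real.sin b * Real.cos (K * b) ≤ Real.cos b * Real.sin (K * b) := by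
  have hK0 : 0 < K := by linarith
  have h := sin_cos_le (s := 1 / K) (t := K * b) (by positivity)
    (by rw [div_le_one hK0]; exact hK) (by positivity) hKb
  have e : 1 / K * (K * b) = b := by field_simp
  rw [e] at h
  have h2 := mul_le_mul_of_nonneg_left h hK0.le
  have e2 : K * (1 / K * Real.cos b * Real.sin (K * b)) = Real.cos b * Real.sin (K * b) := by
    field_simp
  rw [e2] at h2
  linarith

theorem r_cos_hJ {t θ : ℝ} (ht : 0 < t) (h0 : 0 < θ) (h1 : θ < π / 2) :
    √(r2 t θ) * Real.cos (hJ t θ) = Real.cosh t * Real.cos θ := by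
  have hr := r2_pos ht θ
  have hc : 0 < Real.cos θ := Real.cos_pos_of_mem_Ioo ⟨by linarith, h1⟩
  have hC := Real.cosh_pos t
  have e2 : 1 + (Real.tanh t * Real.tan θ) ^ 2 =
      r2 t θ / (Real.cosh t * Real.cos θ) ^ 2 := by
    rw [Real.tanh_eq_sinh_div_cosh, Real.tan_eq_sin_div_cos, div_mul_div_comm]
    have h5 := Real.sin_sq_add_cos_sq θ
    have h6 := Real.cosh_sq t
    have h7 : Real.sin θ ^ 2 = 1 - Real.cos θ ^ 2 := by linarith
    unfold r2
    field_simp
    rw [h7, h6]
    ring
  unfold hJ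
  rw [Real.cos_arctan, e2, Real.sqrt_div hr.le, Real.sqrt_sq (by positivity)]
  have : √(r2 t θ) ≠ 0 := (Real.sqrt_pos.2 hr).ne'
  field_simp

/-- at the tangency the CO form equals the natural form -/
theorem Bg_tangent {C ρ K b h : ℝ} (hρ : 0 < ρ) (hK : 0 < K) (hb : 0 < b) (hKb : K * b < π / 2)
    (hv : K * (C * Real.sin b) * Real.cos (K * b) = √ρ * |Real.cos h| * Real.sin (K * b)) :
    Bg C ρ K 0 b h = psi ρ K 0 b h := by
  have hpi := Real.pi_pos
  have hB0 : 0 < K * b := mul_pos hK hb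
  have hs : 0 < Real.sin (K * b) := Real.sin_pos_of_pos_of_lt_pi hB0 (by linarith)
  have hcs : 0 < Real.cos (K * b) := Real.cos_pos_of_mem_Ioo ⟨by linarith, hKb⟩
  have hN : 0 < Real.sin (K * b) - K * b * Real.cos (K * b) := by
    have := Real.lt_tan hB0 hKb
    rw [Real.tan_eq_sin_div_cos, lt_div_iff₀ hcs] at this
    linarith
  have hP : C * Real.sin b = √ρ * |Real.cos h| * Real.sin (K * b) / (K * Real.cos (K * b)) := by
    rw [eq_div_iff (by positivity)]
    linarith
  have hg : (√ρ * |Real.cos h|) ^ 2 = ρ * Real.cos h ^ 2 := by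
    rw [mul_pow, Real.sq_sqrt hρ.le, sq_abs]
  have e1 : Ev K b (√ρ * |Real.cos h|) (C * Real.sin b) =
      -(K * (Real.sin (K * b) / Real.cos (K * b))) * (ρ * Real.cos h ^ 2) := by
    unfold Ev
    rw [hP, ← hg]
    set γ := √ρ * |Real.cos h|
    rw [div_eq_iff hN.ne']
    field_simp
    ring
  unfold Bg psi
  rw [e1, Real.cos_two_mul, Real.cos_two_mul, Real.sin_two_mul]
  have q := Real.sin_sq_add_cos_sq (K * b)
  have q' : Real.sin (K * b) ^ 2 = 1 - Real.cos (K * b) ^ 2 := by linarith
  have q2 : Real.sin h ^ 2 = 1 - Real.cos h ^ 2 := by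
    have := Real.sin_sq_add_cos_sq h
    linarith
  rw [q2]
  field_simp
  rw [q']
  ring

theorem pr_of_co {t θ b K : ℝ} (ht : 0 < t) (h0 : 0 < θ) (h1 : θ < π / 2)
    (hT : Real.tanh t * Real.tan θ ≤ 1) (hb : θ < b) (hb2 : b < 2 * θ) (hK : 1 ≤ K)
    (hKb : K * b < π) (hKp : K * (2 * θ - b) < π / 2)
    (hs : K * b < π / 2 → Real.sin (2 * (K * b)) ≤ Real.sin (2 * (K * (2 * θ - b))))
    (hco : ∀ h : ℝ, 0 ≤ Real.cos h → 2 * lamJ t θ K 0 ≤ Bg (Real.cosh t) (r2 t θ) K 0 b h +
      psi (r2 t θ) K 0 (2 * θ - b) (2 * hJ t θ - h)) (h : ℝ) : Pr t θ b h := by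
  have hpi := Real.pi_pos
  have hr := r2_pos ht θ
  have hR : 0 < √(r2 t θ) := Real.sqrt_pos.2 hr
  have hK0 : 0 < K := by linarith
  have hb0 : 0 < b := by linarith
  have hp0 : 0 < 2 * θ - b := by linarith
  obtain ⟨j0, j1⟩ := hJ_mem ht h0 h1 hT
  refine ⟨K, hK0, hKb, hKp, ?_⟩
  by_cases hv : π / 2 ≤ K * b ∨ K * (Real.cosh t * Real.sin b) * Real.cos (K * b) ≤
      √(r2 t θ) * |Real.cos h| * Real.sin (K * b)
  · left
    refine ⟨hv, ?_⟩
    rcases le_or_gt 0 (Real.cos h) with hc | hc
    · exact hco h hc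
    · have h2 := hco (h - π) (by rw [Real.cos_sub_pi]; linarith)
      have e1 : Bg (Real.cosh t) (r2 t θ) K 0 b (h - π) = Bg (Real.cosh t) (r2 t θ) K 0 b h := by
        unfold Bg
        rw [Real.cos_sub_pi, Real.sin_sub_pi, abs_neg, neg_sq]
        ring
      have e2 : psi (r2 t θ) K 0 (2 * θ - b) (2 * hJ t θ - (h - π)) =
          psi (r2 t θ) K 0 (2 * θ - b) (2 * hJ t θ - h) := by
        unfold psi
        have : 2 * (2 * hJ t θ - (h - π)) = 2 * (2 * hJ t θ - h) + 2 * π := by ring
        rw [this, Real.cos_add_two_pi]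
        ring
      rwa [e1, e2] at h2
  · right
    push Not at hv
    obtain ⟨hB, hv⟩ := hv
    refine ⟨hB, ?_⟩
    have hB0 : 0 < K * b := mul_pos hK0 hb0
    have hβ0 : 0 < K * (2 * θ - b) := mul_pos hK0 hp0
    have sB : 0 < Real.sin (K * b) := Real.sin_pos_of_pos_of_lt_pi hB0 (by linarith)
    have cB : 0 < Real.cos (K * b) := Real.cos_pos_of_mem_Ioo ⟨by linarith, hB⟩
    have s2B : 0 < Real.sin (2 * (K * b)) :=
      Real.sin_pos_of_pos_of_lt_pi (by linarith) (by linarith)
    have s2β : 0 < Real.sin (2 * (K * (2 * θ - b))) :=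
      Real.sin_pos_of_pos_of_lt_pi (by linarith) (by linarith)
    have sb : 0 < Real.sin b := Real.sin_pos_of_pos_of_lt_pi hb0 (by nlinarith)
    have hC := Real.cosh_pos t
    set a := hJ t θ with ha
    set R := √(r2 t θ) with hRdef
    set C := Real.cosh t with hCdef
    -- the threshold
    set τ : ℝ := K * (C * Real.sin b) * Real.cos (K * b) / (R * Real.sin (K * b)) with hτ
    have hτ0 : 0 < τ := by positivity
    have hτa : τ ≤ Real.cos a := by
      rw [hτ, div_le_iff₀ (by positivity)]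
      have e1 : Real.cos a * (R * Real.sin (K * b)) = (C * Real.cos θ) * Real.sin (K * b) := by
        rw [← r_cos_hJ ht h0 h1]
        ring
      rw [e1]
      have h3 := K_cot_le hK hb0.le hKb.le
      have h4 : Real.cos b ≤ Real.cos θ :=
        Real.cos_le_cos_of_nonneg_of_le_pi h0.le (by nlinarith) hb.le
      have h5 := mul_le_mul_of_nonneg_right h4 sB.le
      have h6 := mul_le_mul_of_nonneg_left (h3.trans h5) hC.le
      linarith
    have hτ1 : τ ≤ 1 := hτa.trans (Real.cos_le_one _)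
    set hv0 : ℝ := Real.arccos τ with hhv0
    have cv : Real.cos hv0 = τ := Real.cos_arccos (by linarith) hτ1
    have hv1 : hv0 ≤ π / 2 := Real.arccos_le_pi_div_two.2 hτ0.le
    have hva : a ≤ hv0 := by
      by_contra hlt
      push Not at hlt
      have := Real.cos_lt_cos_of_nonneg_of_le_pi (Real.arccos_nonneg τ) (by linarith) hlt
      rw [cv] at this
      linarith
    -- the reflected angle
    have hch : |Real.cos h| ≤ 1 := Real.abs_cos_le_one h
    set h' : ℝ := Real.arccos |Real.cos h| with hh'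
    have ch' : Real.cos h' = |Real.cos h| := Real.cos_arccos (by linarith [abs_nonneg (Real.cos h)]) hch
    have h'1 : h' ≤ π / 2 := Real.arccos_le_pi_div_two.2 (abs_nonneg _)
    have h'0 : 0 ≤ h' := Real.arccos_nonneg _
    have hlt : Real.cos h' < Real.cos hv0 := by
      rw [ch', cv, hτ, lt_div_iff₀ (by positivity)]
      linarith
    have hvh : hv0 ≤ h' := by
      by_contra hcon
      push Not at hcon
      have := Real.cos_lt_cos_of_nonneg_of_le_pi h'0 (by linarith) hcon
      linarith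
    have c2 : Real.cos (2 * h) = Real.cos (2 * h') := by
      rw [Real.cos_two_mul, Real.cos_two_mul, ch', sq_abs]
    have s2' : 0 ≤ Real.sin (2 * h') := Real.sin_nonneg_of_nonneg_of_le_pi (by linarith) (by linarith)
    have s2le : Real.sin (2 * h) ≤ Real.sin (2 * h') := by
      refine le_of_sq_le_sq ?_ s2'
      have q1 := Real.sin_sq_add_cos_sq (2 * h)
      have q2 := Real.sin_sq_add_cos_sq (2 * h')
      rw [c2] at q1
      linarith
    have s4 : 0 ≤ Real.sin (4 * a) := Real.sin_nonneg_of_nonneg_of_le_pi (by linarith) (by linarith)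
    have hstep1 : Real.cos (2 * (2 * a - h)) ≤ Real.cos (2 * (2 * a - h')) := by
      have e1 : 2 * (2 * a - h) = 4 * a - 2 * h := by ring
      have e2 : 2 * (2 * a - h') = 4 * a - 2 * h' := by ring
      rw [e1, e2, Real.cos_sub, Real.cos_sub, c2]
      have := mul_le_mul_of_nonneg_left s2le s4
      linarith
    -- monotonicity
    have hstep2 : 0 ≤ (Real.cos (2 * hv0) - Real.cos (2 * h')) / Real.sin (2 * (K * b)) +
        (Real.cos (2 * (2 * a - hv0)) - Real.cos (2 * (2 * a - h'))) /
          Real.sin (2 * (K * (2 * θ - b))) := by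
      have e1 : Real.cos (2 * hv0) - Real.cos (2 * h') =
          2 * Real.sin (h' - hv0) * Real.sin (hv0 + h') := by
        rw [Real.cos_sub_cos]
        have f1 : (2 * hv0 + 2 * h') / 2 = hv0 + h' := by ring
        have f2 : (2 * hv0 - 2 * h') / 2 = -(h' - hv0) := by ring
        rw [f1, f2, Real.sin_neg]
        ring
      have e2 : Real.cos (2 * (2 * a - hv0)) - Real.cos (2 * (2 * a - h')) =
          2 * Real.sin (h' - hv0) * Real.sin (hv0 + h' - 4 * a) := by
        rw [Real.cos_sub_cos]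
        have f1 : (2 * (2 * a - hv0) + 2 * (2 * a - h')) / 2 = -(hv0 + h' - 4 * a) := by ring
        have f2 : (2 * (2 * a - hv0) - 2 * (2 * a - h')) / 2 = h' - hv0 := by ring
        rw [f1, f2, Real.sin_neg]
        ring
      rw [e1, e2]
      have w1 : 0 ≤ Real.sin (h' - hv0) :=
        Real.sin_nonneg_of_nonneg_of_le_pi (by linarith) (by linarith)
      have w2 : 0 ≤ Real.sin (hv0 + h') :=
        Real.sin_nonneg_of_nonneg_of_le_pi (by linarith) (by linarith)
      have w3 : Real.sin (hv0 + h') / Real.sin (2 * (K * (2 * θ - b))) ≤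
          Real.sin (hv0 + h') / Real.sin (2 * (K * b)) :=
        div_le_div_of_nonneg_left w2 s2B (hs hB)
      have w4 : 0 ≤ Real.sin (hv0 + h') + Real.sin (hv0 + h' - 4 * a) := by
        rw [Real.sin_add_sin]
        have f1 : (hv0 + h' + (hv0 + h' - 4 * a)) / 2 = hv0 + h' - 2 * a := by ring
        have f2 : (hv0 + h' - (hv0 + h' - 4 * a)) / 2 = 2 * a := by ring
        rw [f1, f2]
        have g1 : 0 ≤ Real.sin (hv0 + h' - 2 * a) :=
          Real.sin_nonneg_of_nonneg_of_le_pi (by linarith) (by linarith)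
        have g2 : 0 ≤ Real.cos (2 * a) := Real.cos_nonneg_of_mem_Icc ⟨by linarith, by linarith⟩
        positivity
      have w5 : 0 ≤ (Real.sin (hv0 + h') + Real.sin (hv0 + h' - 4 * a)) /
          Real.sin (2 * (K * (2 * θ - b))) := div_nonneg w4 s2β.le
      rw [add_div] at w5
      have w6 : 0 ≤ Real.sin (hv0 + h') / Real.sin (2 * (K * b)) +
          Real.sin (hv0 + h' - 4 * a) / Real.sin (2 * (K * (2 * θ - b))) := by linarith
      have e3 : 2 * Real.sin (h' - hv0) * Real.sin (hv0 + h') / Real.sin (2 * (K * b)) +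
          2 * Real.sin (h' - hv0) * Real.sin (hv0 + h' - 4 * a) /
            Real.sin (2 * (K * (2 * θ - b))) =
          2 * Real.sin (h' - hv0) * (Real.sin (hv0 + h') / Real.sin (2 * (K * b)) +
          Real.sin (hv0 + h' - 4 * a) / Real.sin (2 * (K * (2 * θ - b)))) := by ring
      rw [e3]
      positivity
    -- tangency
    have habs : |Real.cos hv0| = τ := by rw [cv, abs_of_pos hτ0]
    have hBg : Bg C (r2 t θ) K 0 b hv0 = psi (r2 t θ) K 0 b hv0 := by
      refine Bg_tangent hr hK0 hb0 hB ?_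
      rw [habs, hτ, ← hRdef]
      field_simp
    have h3 := hco hv0 (by rw [cv]; exact hτ0.le)
    rw [hBg] at h3
    refine h3.trans ?_
    unfold psi
    rw [c2]
    have hρK : 0 < r2 t θ * K := mul_pos hr hK0
    have m1 := mul_le_mul_of_nonneg_left hstep1 (div_nonneg hρK.le s2β.le)
    have m2 := mul_nonneg hρK.le hstep2
    have e4 : ∀ x y z : ℝ, r2 t θ * K * (x - y) / z = r2 t θ * K / z * x - r2 t θ * K / z * y :=
      fun x y z => by ring
    have e5 : r2 t θ * K * ((Real.cos (2 * hv0) - Real.cos (2 * h')) / Real.sin (2 * (K * b)) +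
        (Real.cos (2 * (2 * a - hv0)) - Real.cos (2 * (2 * a - h'))) /
          Real.sin (2 * (K * (2 * θ - b)))) =
        (r2 t θ * K / Real.sin (2 * (K * b)) * Real.cos (2 * hv0) -
          r2 t θ * K / Real.sin (2 * (K * b)) * Real.cos (2 * h')) +
        (r2 t θ * K / Real.sin (2 * (K * (2 * θ - b))) * Real.cos (2 * (2 * a - hv0)) -
          r2 t θ * K / Real.sin (2 * (K * (2 * θ - b))) * Real.cos (2 * (2 * a - h'))) := by ring
    rw [e5] at m2
    simp only [e4]
    linarith

end Pool.Agent.H97.SU
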