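import Pool.Agent.H97.SU.Pc

/-!
# Surgery

Pieces of total length `2 ℓ`, each of length at most `ℓ`, `K ℓ < π`: then the total energy is at
least that of two natural segments of length `ℓ` with the same total turning.
* `list_one`: a list of pieces of total length `< π / K` is one piece.
* `surgery`: three pieces; cut the first two where the moduli agree and exchange the tails.
* `list_two`: lists.
-/

open Complex MeasureTheory Set Filter Topology
open scoped ComplexConjugate Real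

namespace Pool.Agent.H97.SU

theorem surgery {K r ℓ L₁ L₂ L₃ a₁ a₂ a₃ e₁ e₂ e₃ : ℝ} (hK : 0 < K) (hKl : K * ℓ < π)
    (P₁ : Pc K r L₁ a₁ e₁) (P₂ : Pc K r L₂ a₂ e₂) (P₃ : Pc K r L₃ a₃ e₃)
    (h1 : L₁ ≤ ℓ) (h2 : L₂ ≤ ℓ) (h3 : L₃ ≤ ℓ) (hs : L₁ + L₂ + L₃ = 2 * ℓ) :
    ∃ α β, α + β = a₁ + a₂ + a₃ ∧ nn K ℓ r r α + nn K ℓ r r β ≤ e₁ + e₂ + e₃ := by
  obtain ⟨l1, n1, ρ₁, c1, z1, w1, g1, k1⟩ := P₁
  obtain ⟨l2, n2, ρ₂, c2, z2, w2, g2, k2⟩ := P₂
  obtain ⟨l3, n3, -⟩ := P₃
  -- one of the pieces has length `ℓ`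
  rcases eq_or_lt_of_le h1 with q1 | q1
  · have e : L₂ + L₃ = ℓ := by linarith
    have m := nn_merge r r r a₂ a₃ hK l2 l3 (by rw [e]; exact hKl)
    rw [e] at m
    rw [q1] at n1
    exact ⟨a₁, a₂ + a₃, by ring, by linarith⟩
  rcases eq_or_lt_of_le h2 with q2 | q2
  · have e : L₁ + L₃ = ℓ := by linarith
    have m := nn_merge r r r a₁ a₃ hK l1 l3 (by rw [e]; exact hKl)
    rw [e] at m
    rw [q2] at n2
    exact ⟨a₂, a₁ + a₃, by ring, by linarith⟩
  rcases eq_or_lt_of_le h3 with q3 | q3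
  · have e : L₁ + L₂ = ℓ := by linarith
    have m := nn_merge r r r a₁ a₂ hK l1 l2 (by rw [e]; exact hKl)
    rw [e] at m
    rw [q3] at n3
    exact ⟨a₃, a₁ + a₂, by ring, by linarith⟩
  -- the cut
  set z : ℝ := L₁ + L₂ - ℓ with hz
  have hz0 : 0 < z := by linarith
  have hz3 : z + L₃ = ℓ := by linarith
  have hc : ContinuousOn (fun s => ρ₁ (s + (ℓ - L₂)) - ρ₂ s) (Icc 0 z) := by
    refine (c1.comp (by fun_prop) ?_).sub (c2.mono ?_)
    · intro s hs
      exact ⟨by linarith [hs.1], by linarith [hs.2]⟩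
    · intro s hs
      exact ⟨hs.1, by linarith [hs.2]⟩
  have hmem : (0 : ℝ) ∈ Icc (ρ₁ (z + (ℓ - L₂)) - ρ₂ z) (ρ₁ (0 + (ℓ - L₂)) - ρ₂ 0) := by
    constructor
    · have e : z + (ℓ - L₂) = L₁ := by rw [hz]; ring
      rw [e, w1]
      have := g2 z ⟨hz0.le, by linarith⟩
      linarith
    · rw [z2]
      have := g1 (0 + (ℓ - L₂)) ⟨by linarith, by linarith⟩
      linarith
  obtain ⟨s, hs1, hs2⟩ := intermediate_value_Icc' hz0.le hc hmem
  simp only at hs2
  rcases eq_or_lt_of_le hs1.1 with q | q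
  · -- `s = 0`
    subst q
    rw [z2, zero_add] at hs2
    have r1 : ρ₁ (ℓ - L₂) = r := by linarith
    obtain ⟨α, hα⟩ := k1 (ℓ - L₂) ⟨by linarith, by linarith⟩
    rw [r1] at hα
    have e1 : (ℓ - L₂) + L₂ = ℓ := by ring
    have e2 : (L₁ - (ℓ - L₂)) + L₃ = ℓ := by linarith
    have m1 := nn_merge r r r α a₂ hK (by linarith : 0 < ℓ - L₂) l2 (by rw [e1]; exact hKl)
    have m2 := nn_merge r r r (a₁ - α) a₃ hK (by linarith : 0 < L₁ - (ℓ - L₂)) l3
      (by rw [e2]; exact hKl)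
    rw [e1] at m1
    rw [e2] at m2
    exact ⟨α + a₂, a₁ - α + a₃, by ring, by linarith⟩
  rcases eq_or_lt_of_le hs1.2 with q' | q'
  · -- `s = z`
    subst q'
    have e0 : z + (ℓ - L₂) = L₁ := by rw [hz]; ring
    rw [e0, w1] at hs2
    have r2 : ρ₂ z = r := by linarith
    obtain ⟨β, hβ⟩ := k2 z ⟨hz0, by linarith⟩
    rw [r2] at hβ
    have e2 : L₁ + (L₂ - z) = ℓ := by rw [hz]; ring
    have m1 := nn_merge r r r β a₃ hK hz0 l3 (by rw [hz3]; exact hKl)
    have m2 := nn_merge r r r a₁ (a₂ - β) hK l1 (by linarith : 0 < L₂ - z)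
      (by rw [e2]; exact hKl)
    rw [hz3] at m1
    rw [e2] at m2
    exact ⟨β + a₃, a₁ + (a₂ - β), by ring, by linarith⟩
  · have r1 : ρ₁ (s + (ℓ - L₂)) = ρ₂ s := by linarith
    obtain ⟨α, hα⟩ := k1 (s + (ℓ - L₂)) ⟨by linarith, by linarith⟩
    obtain ⟨β, hβ⟩ := k2 s ⟨q, by linarith⟩
    rw [r1] at hα
    have e1 : (s + (ℓ - L₂)) + (L₂ - s) = ℓ := by ring
    have e2 : s + (L₁ - (s + (ℓ - L₂))) = z := by rw [hz]; ring
    have hKz : K * z < π := by
      have := mul_lt_mul_of_pos_left (by linarith : z < ℓ) hK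
      linarith
    have m1 := nn_merge r (ρ₂ s) r α (a₂ - β) hK (by linarith : 0 < s + (ℓ - L₂))
      (by linarith : 0 < L₂ - s) (by rw [e1]; exact hKl)
    have m2 := nn_merge r (ρ₂ s) r β (a₁ - α) hK q
      (by linarith : 0 < L₁ - (s + (ℓ - L₂))) (by rw [e2]; exact hKz)
    have m3 := nn_merge r r r (β + (a₁ - α)) a₃ hK hz0 l3 (by rw [hz3]; exact hKl)
    rw [e1] at m1
    rw [e2] at m2
    rw [hz3] at m3
    exact ⟨α + (a₂ - β), β + (a₁ - α) + a₃, by ring, by linarith⟩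

theorem list_one {K r : ℝ} (hK : 0 < K) : ∀ (l : List (ℝ × ℝ × ℝ)) (L a e : ℝ), Pc K r L a e →
    (∀ x ∈ l, Pc K r x.1 x.2.1 x.2.2) → K * (L + (l.map fun x => x.1).sum) < π →
    Pc K r (L + (l.map fun x => x.1).sum) (a + (l.map fun x => x.2.1).sum)
      (e + (l.map fun x => x.2.2).sum) := by
  intro l
  induction l with
  | nil =>
    intro L a e P _ _
    simpa using P
  | cons x l ih =>
    intro L a e P hx h
    simp only [List.map_cons, List.sum_cons] at h ⊢
    have P2 := hx x List.mem_cons_self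
    have hpos : 0 ≤ (l.map fun x => x.1).sum := by
      refine List.sum_nonneg fun y hy => ?_
      obtain ⟨z, hz, rfl⟩ := List.mem_map.1 hy
      exact (hx z (List.mem_cons_of_mem _ hz)).1.le
    have h2 : K * (L + x.1) < π := by nlinarith [mul_nonneg hK.le hpos]
    have P3 := ih (L + x.1) (a + x.2.1) (e + x.2.2) (Pc_merge hK h2 P P2)
      (fun y hy => hx y (List.mem_cons_of_mem _ hy)) (by rw [add_assoc]; exact h)
    have e1 : ∀ u v w : ℝ, u + v + w = u + (v + w) := fun u v w => add_assoc u v w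
    rw [e1, e1, e1] at P3
    exact P3

theorem list_two {K r ℓ : ℝ} (hK : 0 < K) (hKl : K * ℓ < π) :
    ∀ (l : List (ℝ × ℝ × ℝ)) (L a e : ℝ), Pc K r L a e → L ≤ ℓ →
    (∀ x ∈ l, Pc K r x.1 x.2.1 x.2.2 ∧ x.1 ≤ ℓ) → L + (l.map fun x => x.1).sum = 2 * ℓ →
    ∃ α β, α + β = a + (l.map fun x => x.2.1).sum ∧
      nn K ℓ r r α + nn K ℓ r r β ≤ e + (l.map fun x => x.2.2).sum := by
  intro l
  induction l with
  | nil =>
    intro L a e P hL _ h
    exfalso
    simp only [List.map_nil, List.sum_nil, add_zero] at h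
    have := P.1
    linarith
  | cons x l ih =>
    intro L a e P hL hx h
    simp only [List.map_cons, List.sum_cons] at h ⊢
    obtain ⟨P2, hx2⟩ := hx x List.mem_cons_self
    have hx' : ∀ y ∈ l, Pc K r y.1 y.2.1 y.2.2 ∧ y.1 ≤ ℓ :=
      fun y hy => hx y (List.mem_cons_of_mem _ hy)
    rcases le_or_gt (L + x.1) ℓ with h1 | h1
    · have h2 : K * (L + x.1) < π := by
        have := mul_le_mul_of_nonneg_left h1 hK.le
        linarith
      obtain ⟨α, β, h3, h4⟩ := ih (L + x.1) (a + x.2.1) (e + x.2.2) (Pc_merge hK h2 P P2) h1 hx'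
        (by rw [add_assoc]; exact h)
      exact ⟨α, β, by rw [h3, add_assoc], by rw [add_assoc] at h4; exact h4⟩
    · cases l with
      | nil =>
        simp only [List.map_nil, List.sum_nil, add_zero] at h ⊢
        have e1 : L = ℓ := by linarith
        have e2 : x.1 = ℓ := by linarith
        have n1 := P.2.1
        have n2 := P2.2.1
        rw [e1] at n1
        rw [e2] at n2
        exact ⟨a, x.2.1, rfl, by linarith⟩
      | cons y l' =>
        have h5 : y.1 + (l'.map fun x => x.1).sum = 2 * ℓ - L - x.1 := by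
          simp only [List.map_cons, List.sum_cons] at h
          linarith
        have P3 := list_one hK l' y.1 y.2.1 y.2.2 (hx' y List.mem_cons_self).1
          (fun z hz => (hx' z (List.mem_cons_of_mem _ hz)).1) (by
            rw [h5]
            have := mul_lt_mul_of_pos_left (by linarith : 2 * ℓ - L - x.1 < ℓ) hK
            linarith)
        obtain ⟨α, β, h3, h4⟩ := surgery hK hKl P P2 P3 hL hx2 (by linarith) (by linarith)
        simp only [List.map_cons, List.sum_cons]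
        exact ⟨α, β, by linarith, by linarith⟩

end Pool.Agent.H97.SU
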