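import Pool.Agent.H15.PM.A
import Pool.Agent.H15.PM.B

/-!
# Two point inequality and merging

`nn K L p q α` is the minimum of `∫_0^L |f'|^2 - K^2 |f|^2` for paths with end values of moduli
`p`, `q` and angle `α` between them (`K L < π`).
* `nn_merge`: concatenation can only decrease it (complete square).
* `two_point`: every `C^1` path has at least this energy (even and odd part about the midpoint).
-/

open Complex MeasureTheory Set Filter Topology
open scoped ComplexConjugate Real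

namespace Pool.Agent.H97.SU

/-- minimal energy of a segment of length `L`, end moduli `p`, `q`, turning `α` -/
noncomputable def nn (K L p q α : ℝ) : ℝ :=
  K * ((p ^ 2 + q ^ 2) * Real.cos (K * L) - 2 * p * q * Real.cos α) / Real.sin (K * L)

theorem nn_merge {K L₁ L₂ : ℝ} (p q s α β : ℝ) (hK : 0 < K) (h1 : 0 < L₁) (h2 : 0 < L₂)
    (h : K * (L₁ + L₂) < π) :
    nn K (L₁ + L₂) p s (α + β) ≤ nn K L₁ p q α + nn K L₂ q s β := by
  have a1 : 0 < K * L₁ := mul_pos hK h1
  have a2 : 0 < K * L₂ := mul_pos hK h2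
  have a3 : K * (L₁ + L₂) = K * L₁ + K * L₂ := by ring
  rw [a3] at h
  have s1 : 0 < Real.sin (K * L₁) := Real.sin_pos_of_pos_of_lt_pi a1 (by linarith)
  have s2 : 0 < Real.sin (K * L₂) := Real.sin_pos_of_pos_of_lt_pi a2 (by linarith)
  have s3 : 0 < Real.sin (K * L₁ + K * L₂) := Real.sin_pos_of_pos_of_lt_pi (by linarith) h
  unfold nn
  rw [a3]
  set x := K * L₁ with hx
  set y := K * L₂ with hy
  have e3 : Real.sin (x + y) = Real.sin x * Real.cos y + Real.cos x * Real.sin y := Real.sin_add x y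
  have e4 : Real.cos (x + y) = Real.cos x * Real.cos y - Real.sin x * Real.sin y := Real.cos_add x y
  have q1 := Real.sin_sq_add_cos_sq x
  have q2 := Real.sin_sq_add_cos_sq y
  have q3 := Real.sin_sq_add_cos_sq α
  have q4 := Real.sin_sq_add_cos_sq β
  have key : K * ((p ^ 2 + q ^ 2) * Real.cos x - 2 * p * q * Real.cos α) / Real.sin x +
      K * ((q ^ 2 + s ^ 2) * Real.cos y - 2 * q * s * Real.cos β) / Real.sin y -
      K * ((p ^ 2 + s ^ 2) * Real.cos (x + y) - 2 * p * s * Real.cos (α + β)) /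
        Real.sin (x + y) =
      K * ((q * Real.sin (x + y) - p * Real.sin y * Real.cos α - s * Real.sin x * Real.cos β) ^ 2 +
        (p * Real.sin y * Real.sin α - s * Real.sin x * Real.sin β) ^ 2) /
        (Real.sin x * Real.sin y * Real.sin (x + y)) := by
    rw [eq_div_iff (by positivity), sub_mul, add_mul]
    have f1 : K * ((p ^ 2 + q ^ 2) * Real.cos x - 2 * p * q * Real.cos α) / Real.sin x *
        (Real.sin x * Real.sin y * Real.sin (x + y)) =
        K * ((p ^ 2 + q ^ 2) * Real.cos x - 2 * p * q * Real.cos α) *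
        (Real.sin y * Real.sin (x + y)) := by field_simp
    have f2 : K * ((q ^ 2 + s ^ 2) * Real.cos y - 2 * q * s * Real.cos β) / Real.sin y *
        (Real.sin x * Real.sin y * Real.sin (x + y)) =
        K * ((q ^ 2 + s ^ 2) * Real.cos y - 2 * q * s * Real.cos β) *
        (Real.sin x * Real.sin (x + y)) := by field_simp
    have f3 : K * ((p ^ 2 + s ^ 2) * Real.cos (x + y) - 2 * p * s * Real.cos (α + β)) /
        Real.sin (x + y) * (Real.sin x * Real.sin y * Real.sin (x + y)) =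
        K * ((p ^ 2 + s ^ 2) * Real.cos (x + y) - 2 * p * s * Real.cos (α + β)) *
        (Real.sin x * Real.sin y) := by field_simp
    rw [f1, f2, f3, e4, Real.cos_add α β, e3]
    have c1 : Real.cos x ^ 2 = 1 - Real.sin x ^ 2 := by linarith
    have c2 : Real.cos y ^ 2 = 1 - Real.sin y ^ 2 := by linarith
    have c3 : Real.sin α ^ 2 = 1 - Real.cos α ^ 2 := by linarith
    have c4 : Real.sin β ^ 2 = 1 - Real.cos β ^ 2 := by linarith
    ring_nf
    rw [c1, c2, c3, c4]
    ring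
  have : 0 ≤ K * ((q * Real.sin (x + y) - p * Real.sin y * Real.cos α - s * Real.sin x * Real.cos β) ^ 2 +
        (p * Real.sin y * Real.sin α - s * Real.sin x * Real.sin β) ^ 2) /
        (Real.sin x * Real.sin y * Real.sin (x + y)) := by positivity
  linarith

/-- symmetric interval -/
theorem two_sym {f f' : ℝ → ℂ} {K b α : ℝ} (hK : 0 < K) (hb : 0 < b) (hKb : K * (2 * b) < π)
    (hf : ∀ s ∈ Icc (-b) b, HasDerivAt f (f' s) s) (hc : ContinuousOn f' (Icc (-b) b))
    (hα : (conj (f (-b)) * f b).re = ‖f (-b)‖ * ‖f b‖ * Real.cos α) :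
    nn K (2 * b) ‖f (-b)‖ ‖f b‖ α ≤ ∫ s in (-b)..b, (‖f' s‖ ^ 2 - K ^ 2 * ‖f s‖ ^ 2) := by
  have hpi := Real.pi_pos
  have hB0 : 0 < K * b := mul_pos hK hb
  have hKb' : K * b < π / 2 := by linarith
  have h1 := H15.PM.half_e (H15.PM.ev_der hf) (H15.PM.od_cont hc) hK hb.le hKb'
  have h2 := H15.PM.half_o (H15.PM.od_der hf) (H15.PM.ev_cont hc) (H15.PM.od_zero f) hK hb
    (by linarith)
  rw [H15.PM.split hb.le hf hc K]
  have hs : 0 < Real.sin (K * b) := Real.sin_pos_of_pos_of_lt_pi hB0 (by linarith)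
  have hcs : 0 < Real.cos (K * b) := Real.cos_pos_of_mem_Ioo ⟨by linarith, hKb'⟩
  have n1 : ‖H15.PM.ev f b‖ ^ 2 = (‖f b‖ ^ 2 + ‖f (-b)‖ ^ 2 + 2 * (conj (f (-b)) * f b).re) / 4 := by
    unfold H15.PM.ev
    simp only [← Complex.normSq_eq_norm_sq, Complex.normSq_apply, Complex.div_ofNat_re,
      Complex.div_ofNat_im, Complex.add_re, Complex.add_im, Complex.mul_re, Complex.conj_re,
      Complex.conj_im]
    ring
  have n2 : ‖H15.PM.od f b‖ ^ 2 = (‖f b‖ ^ 2 + ‖f (-b)‖ ^ 2 - 2 * (conj (f (-b)) * f b).re) / 4 := by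
    unfold H15.PM.od
    simp only [← Complex.normSq_eq_norm_sq, Complex.normSq_apply, Complex.div_ofNat_re,
      Complex.div_ofNat_im, Complex.sub_re, Complex.sub_im, Complex.mul_re, Complex.conj_re,
      Complex.conj_im]
    ring
  rw [n1] at h1
  rw [n2] at h2
  have e : nn K (2 * b) ‖f (-b)‖ ‖f b‖ α =
      2 * (-(K * Real.tan (K * b)) * ((‖f b‖ ^ 2 + ‖f (-b)‖ ^ 2 +
        2 * (conj (f (-b)) * f b).re) / 4)) +
      2 * (K * (Real.cos (K * b) / Real.sin (K * b)) * ((‖f b‖ ^ 2 + ‖f (-b)‖ ^ 2 -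
        2 * (conj (f (-b)) * f b).re) / 4)) := by
    unfold nn
    have a3 : K * (2 * b) = 2 * (K * b) := by ring
    rw [a3, Real.cos_two_mul, Real.sin_two_mul, Real.tan_eq_sin_div_cos, hα]
    have q := Real.sin_sq_add_cos_sq (K * b)
    have q' : Real.sin (K * b) ^ 2 = 1 - Real.cos (K * b) ^ 2 := by linarith
    field_simp
    rw [q']
    ring
  rw [e]
  linarith

/-- general interval -/
theorem two_point {f f' : ℝ → ℂ} {K a c α : ℝ} (hK : 0 < K) (hac : a < c) (hKc : K * (c - a) < π)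
    (hf : ∀ s, HasDerivAt f (f' s) s) (hc : Continuous f')
    (hα : (conj (f a) * f c).re = ‖f a‖ * ‖f c‖ * Real.cos α) :
    nn K (c - a) ‖f a‖ ‖f c‖ α ≤ ∫ s in a..c, (‖f' s‖ ^ 2 - K ^ 2 * ‖f s‖ ^ 2) := by
  set m : ℝ := (a + c) / 2 with hm
  set b : ℝ := (c - a) / 2 with hb
  have hb0 : 0 < b := by rw [hb]; linarith
  have e1 : -b + m = a := by rw [hb, hm]; ring
  have e2 : b + m = c := by rw [hb, hm]; ring
  have h := two_sym (f := fun s => f (s + m)) (f' := fun s => f' (s + m)) (K := K) (b := b) (α := α)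
    hK hb0 (by rw [hb]; linarith) (fun s _ => (hf (s + m)).comp_add_const s m)
    (hc.comp (continuous_id.add continuous_const)).continuousOn (by simpa only [e1, e2] using hα)
  simp only [e1, e2] at h
  have e3 : 2 * b = c - a := by rw [hb]; ring
  rw [e3] at h
  have e4 : ∫ s in (-b)..b, (‖f' (s + m)‖ ^ 2 - K ^ 2 * ‖f (s + m)‖ ^ 2) =
      ∫ s in a..c, (‖f' s‖ ^ 2 - K ^ 2 * ‖f s‖ ^ 2) := by
    rw [intervalIntegral.integral_comp_add_right (fun s => ‖f' s‖ ^ 2 - K ^ 2 * ‖f s‖ ^ 2) m, e1, e2]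
  rwa [e4] at h

end Pool.Agent.H97.SU
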